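import Pool.Agent.W97.MT.Eta

/-!
The Atkin-Lehner transformations of the eta products on `X_0(14)`.
-/

set_option autoImplicit false

open UpperHalfPlane MatrixGroups CongruenceSubgroup Filter Topology
open scoped ModularForm Pointwise

namespace Pool.Agent.W97.MT

open Pool.Agent.W97.TW

lemma I4 : Complex.I ^ 4 = 1 := Complex.I_pow_four

section w14

variable {z : ℂ} (hz : 0 < z.im)
include hz

lemma z_ne : z ≠ 0 := fun h => by simp [h] at hz

lemma w14_pos : 0 < (-1 / (14 * z) : ℂ).im := by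
  have h := (im_moebius (a := 0) (b := -1) (c := 1) (d := 0) (by norm_num)
    (im_mul hz 14 (by norm_num))).1
  simpa using h

lemma w14_G : G (-1 / (14 * z)) = -Complex.I * (14 * z) * G (14 * z) ∧
    G (2 * (-1 / (14 * z))) = -Complex.I * (7 * z) * G (7 * z) ∧
    G (7 * (-1 / (14 * z))) = -Complex.I * (2 * z) * G (2 * z) ∧
    G (14 * (-1 / (14 * z))) = -Complex.I * z * G z := by
  have h0 := z_ne hz
  refine ⟨G_S (im_mul hz 14 (by norm_num)), ?_, ?_, ?_⟩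
  · rw [show (2 : ℂ) * (-1 / (14 * z)) = -1 / (7 * z) by field_simp; norm_num]
    exact G_S (im_mul hz 7 (by norm_num))
  · rw [show (7 : ℂ) * (-1 / (14 * z)) = -1 / (2 * z) by field_simp; norm_num]
    exact G_S (im_mul hz 2 (by norm_num))
  · rw [show (14 : ℂ) * (-1 / (14 * z)) = -1 / z by field_simp]
    exact G_S hz

lemma ff_w14 : ff (-1 / (14 * z)) ^ 2 = (14 * z ^ 2) ^ 2 * ff z ^ 2 := by
  obtain ⟨e1, e2, e7, e14⟩ := w14_G hz
  rw [ff_sq, ff_sq]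
  unfold Gs
  simp only [zpow_one]
  rw [e1, e2, e7, e14]
  linear_combination (196 * z ^ 4 * G z * G (2 * z) * G (7 * z) * G (14 * z)) * I4

lemma X1_w14 : X1 (-1 / (14 * z)) ^ 2 = 64 * ((Q (qq z) ^ 7)⁻¹ * Q (qq z ^ 2) ^ 7 * Q (qq z ^ 7) *
    (Q (qq z ^ 14))⁻¹) ^ 2 := by
  obtain ⟨e1, e2, e7, e14⟩ := w14_G hz
  have h0 := z_ne hz
  have g1 := G_mul 1 z
  have g2 := G_mul 2 z
  have g7 := G_mul 7 z
  have g14 := G_mul 14 z
  push_cast at g1 g2 g7 g14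
  rw [one_mul, pow_one] at g1
  have hq := norm_qq_lt hz
  have n1 := Q_ne hq
  have n14 := Q_ne_pow hq (d := 14) (by norm_num)
  have ht := tt_ne z
  rw [X1_sq]
  unfold Gs
  rw [e1, e2, e7, e14, g1, g2, g7, g14, zpow_neg_one, zpow_one, zpow_neg]
  norm_cast
  have hI : Complex.I ≠ 0 := Complex.I_ne_zero
  field_simp
  ring_nf

lemma Y2_w14 : Y2 (-1 / (14 * z)) = 49 * ((Q (qq z) ^ 2)⁻¹ * Q (qq z ^ 2) * Q (qq z ^ 7) ^ 2 *
    (Q (qq z ^ 14))⁻¹) ^ 4 := by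
  obtain ⟨e1, e2, e7, e14⟩ := w14_G hz
  have h0 := z_ne hz
  have g1 := G_mul 1 z
  have g2 := G_mul 2 z
  have g7 := G_mul 7 z
  have g14 := G_mul 14 z
  push_cast at g1 g2 g7 g14
  rw [one_mul, pow_one] at g1
  have hq := norm_qq_lt hz
  have n1 := Q_ne hq
  have n14 := Q_ne_pow hq (d := 14) (by norm_num)
  have ht := tt_ne z
  rw [Y2_eq]
  unfold Gs
  rw [e1, e2, e7, e14, g1, g2, g7, g14, zpow_neg, zpow_neg]
  norm_cast
  have hI : Complex.I ≠ 0 := Complex.I_ne_zero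
  field_simp
  ring_nf

end w14

lemma ze6 : ze ^ (6 : ℤ) = -1 := by
  rw [show (6 : ℤ) = 3 + 3 by norm_num, zpow_add₀ ze_ne, ze_3]
  exact Complex.I_mul_I

/-- a cube root of unity -/
noncomputable def om : ℂ := ze ^ (4 : ℤ)

lemma om_ne : om ≠ 0 := zpow_ne_zero _ ze_ne

lemma om3 : om ^ 3 = 1 := by
  unfold om
  rw [← zpow_natCast, ← zpow_mul]
  exact ze_12

lemma ze8 : ze ^ (8 : ℤ) = om ^ 2 := by
  unfold om
  rw [← zpow_natCast, ← zpow_mul]
  norm_num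

section w7

variable {z : ℂ} (hz : 0 < z.im)
include hz

lemma w7_aux : (2 * z - 1 : ℂ) ≠ 0 := by
  intro h
  have := congrArg Complex.im h
  simp at this
  exact hz.ne' this

lemma w7_pos : 0 < ((7 * z - 4) / (14 * z - 7) : ℂ).im := by
  have h := (im_moebius (a := 1) (b := -4) (c := 2) (d := -7) (by norm_num)
    (im_mul hz 7 (by norm_num))).1
  push_cast at h
  convert h using 2
  congr 1 <;> ring

lemma w7_G : G ((7 * z - 4) / (14 * z - 7)) = -(14 * z - 7) * G (7 * z) ∧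
    G (2 * ((7 * z - 4) / (14 * z - 7))) = Complex.I * (14 * z - 7) * G (14 * z) ∧
    G (7 * ((7 * z - 4) / (14 * z - 7))) = (2 * z - 1) * G z ∧
    G (14 * ((7 * z - 4) / (14 * z - 7))) = Complex.I * (2 * z - 1) * G (2 * z) := by
  have h0 := w7_aux hz
  have h7 : (14 * z - 7 : ℂ) = 7 * (2 * z - 1) := by ring
  have e1 := G_moebius (a := 1) (b := -4) (c := 2) (d := -7) (by norm_num)
    (im_mul hz 7 (by norm_num))
  have e2 := G_moebius (a := 1) (b := -8) (c := 1) (d := -7) (by norm_num)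
    (im_mul hz 14 (by norm_num))
  have e7 := G_moebius (a := 7) (b := -4) (c := 2) (d := -1) (by norm_num) hz
  have e14 := G_moebius (a := 7) (b := -8) (c := 1) (d := -1) (by norm_num)
    (im_mul hz 2 (by norm_num))
  rw [show kap (1 : ℤ) (-4) 2 (-7) = -54 by norm_num [kap],
    ze_congr (m := -54) (n := 6) (by norm_num), ze6] at e1
  rw [show kap (1 : ℤ) (-8) 1 (-7) = -9 by norm_num [kap],
    ze_congr (m := -9) (n := 3) (by norm_num), ze_3] at e2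
  rw [show kap (7 : ℤ) (-4) 2 (-1) = -12 by norm_num [kap],
    ze_congr (m := -12) (n := 0) (by norm_num), zpow_zero] at e7
  rw [show kap (7 : ℤ) (-8) 1 (-1) = 3 by norm_num [kap], ze_3] at e14
  push_cast at e1 e2 e7 e14
  refine ⟨?_, ?_, ?_, ?_⟩
  · rw [show (7 * z - 4) / (14 * z - 7) = (1 * (7 * z) + -4) / (2 * (7 * z) + -7) by
      congr 1 <;> ring, e1]
    ring
  · rw [show 2 * ((7 * z - 4) / (14 * z - 7)) = (1 * (14 * z) + -8) / (1 * (14 * z) + -7) by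
      rw [← mul_div_assoc]; congr 1 <;> ring, e2]
    ring
  · rw [show 7 * ((7 * z - 4) / (14 * z - 7)) = (7 * z + -4) / (2 * z + -1) by
      rw [h7, show (2 * z + -1 : ℂ) = 2 * z - 1 by ring]; field_simp; ring, e7]
    ring
  · rw [show 14 * ((7 * z - 4) / (14 * z - 7)) = (7 * (2 * z) + -8) / (1 * (2 * z) + -1) by
      rw [h7, show (1 * (2 * z) + -1 : ℂ) = 2 * z - 1 by ring]; field_simp; ring, e14]
    ring

lemma ff_w7 : ff ((7 * z - 4) / (14 * z - 7)) ^ 2 = (7 * (2 * z - 1) ^ 2) ^ 2 * ff z ^ 2 := by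
  obtain ⟨e1, e2, e7, e14⟩ := w7_G hz
  rw [ff_sq, ff_sq]
  unfold Gs
  simp only [zpow_one]
  rw [e1, e2, e7, e14]
  linear_combination (-(49 * (2 * z - 1) ^ 4 * G z * G (2 * z) * G (7 * z) * G (14 * z))) *
    Complex.I_sq

lemma X1_w7 : X1 ((7 * z - 4) / (14 * z - 7)) ^ 2 = (Q (qq z) ^ 7 * (Q (qq z ^ 2) ^ 7)⁻¹ *
    (Q (qq z ^ 7))⁻¹ * (Q (qq z ^ 14))) ^ 2 := by
  obtain ⟨e1, e2, e7, e14⟩ := w7_G hz
  have h0 := w7_aux hz
  have h7 : (14 * z - 7 : ℂ) = 7 * (2 * z - 1) := by ring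
  have g1 := G_mul 1 z
  have g2 := G_mul 2 z
  have g7 := G_mul 7 z
  have g14 := G_mul 14 z
  push_cast at g1 g2 g7 g14
  rw [one_mul, pow_one] at g1
  have hq := norm_qq_lt hz
  have n1 := Q_ne hq
  have n2 := Q_ne_pow hq (d := 2) (by norm_num)
  have n7 := Q_ne_pow hq (d := 7) (by norm_num)
  have n14 := Q_ne_pow hq (d := 14) (by norm_num)
  have ht := tt_ne z
  rw [X1_sq]
  unfold Gs
  rw [e1, e2, e7, e14, g1, g2, g7, g14, zpow_neg_one, zpow_one, zpow_neg, h7]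
  norm_cast
  push_cast
  have hI : Complex.I ≠ 0 := Complex.I_ne_zero
  have h6 : Complex.I ^ 6 = -1 := by
    rw [show (6 : ℕ) = 4 + 2 by norm_num, pow_add, I4, Complex.I_sq]; ring
  field_simp
  rw [h6]

lemma Y2_w7 : Y2 ((7 * z - 4) / (14 * z - 7)) = qq z ^ 3 * (49 * (Q (qq z) * (Q (qq z ^ 2) ^ 2)⁻¹ *
    (Q (qq z ^ 7))⁻¹ * (Q (qq z ^ 14)) ^ 2) ^ 4) := by
  obtain ⟨e1, e2, e7, e14⟩ := w7_G hz
  have h0 := w7_aux hz
  have h7 : (14 * z - 7 : ℂ) = 7 * (2 * z - 1) := by ring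
  have g1 := G_mul 1 z
  have g2 := G_mul 2 z
  have g7 := G_mul 7 z
  have g14 := G_mul 14 z
  push_cast at g1 g2 g7 g14
  rw [one_mul, pow_one] at g1
  have hq := norm_qq_lt hz
  have n1 := Q_ne hq
  have n2 := Q_ne_pow hq (d := 2) (by norm_num)
  have n7 := Q_ne_pow hq (d := 7) (by norm_num)
  have n14 := Q_ne_pow hq (d := 14) (by norm_num)
  have ht := tt_ne z
  rw [Y2_eq]
  unfold Gs
  have hq2 : qq z ^ 3 = tt z ^ 72 := by rw [← tt_pow]; ring
  rw [hq2, e1, e2, e7, e14, g1, g2, g7, g14, zpow_neg, zpow_neg, h7]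
  norm_cast
  push_cast
  have hI : Complex.I ≠ 0 := Complex.I_ne_zero
  field_simp
  ring_nf

end w7

section w2

variable {z : ℂ} (hz : 0 < z.im)
include hz

lemma w2_aux : (7 * z - 3 : ℂ) ≠ 0 := by
  intro h
  have := congrArg Complex.im h
  simp at this
  exact hz.ne' this

lemma w2_pos : 0 < ((2 * z - 1) / (14 * z - 6) : ℂ).im := by
  have h := (im_moebius (a := 1) (b := -1) (c := 7) (d := -6) (by norm_num)
    (im_mul hz 2 (by norm_num))).1
  push_cast at h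
  convert h using 2
  congr 1 <;> ring

lemma w2_G : G ((2 * z - 1) / (14 * z - 6)) = om * (14 * z - 6) * G (2 * z) ∧
    G (2 * ((2 * z - 1) / (14 * z - 6))) = om ^ 2 * (7 * z - 3) * G z ∧
    G (7 * ((2 * z - 1) / (14 * z - 6))) = om * (14 * z - 6) * G (14 * z) ∧
    G (14 * ((2 * z - 1) / (14 * z - 6))) = om ^ 2 * (7 * z - 3) * G (7 * z) := by
  have h0 := w2_aux hz
  have h7 : (14 * z - 6 : ℂ) = 2 * (7 * z - 3) := by ring
  have e1 := G_moebius (a := 1) (b := -1) (c := 7) (d := -6) (by norm_num)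
    (im_mul hz 2 (by norm_num))
  have e2 := G_moebius (a := 2) (b := -1) (c := 7) (d := -3) (by norm_num) hz
  have e7 := G_moebius (a := 1) (b := -7) (c := 1) (d := -6) (by norm_num)
    (im_mul hz 14 (by norm_num))
  have e14 := G_moebius (a := 2) (b := -7) (c := 1) (d := -3) (by norm_num)
    (im_mul hz 7 (by norm_num))
  rw [ze_congr (m := kap (1 : ℤ) (-1) 7 (-6)) (n := 4) (by norm_num [kap])] at e1
  rw [ze_congr (m := kap (2 : ℤ) (-1) 7 (-3)) (n := 8) (by norm_num [kap]), ze8] at e2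
  rw [ze_congr (m := kap (1 : ℤ) (-7) 1 (-6)) (n := 4) (by norm_num [kap])] at e7
  rw [ze_congr (m := kap (2 : ℤ) (-7) 1 (-3)) (n := 8) (by norm_num [kap]), ze8] at e14
  change _ = om * _ * _ at e1
  change _ = om * _ * _ at e7
  push_cast at e1 e2 e7 e14
  refine ⟨?_, ?_, ?_, ?_⟩
  · rw [show (2 * z - 1) / (14 * z - 6) = (1 * (2 * z) + -1) / (7 * (2 * z) + -6) by
      congr 1 <;> ring, e1]
    ring
  · rw [show 2 * ((2 * z - 1) / (14 * z - 6)) = (2 * z + -1) / (7 * z + -3) by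
      rw [h7, show (7 * z + -3 : ℂ) = 7 * z - 3 by ring]; field_simp; ring, e2]
    ring
  · rw [show 7 * ((2 * z - 1) / (14 * z - 6)) = (1 * (14 * z) + -7) / (1 * (14 * z) + -6) by
      rw [← mul_div_assoc]; congr 1 <;> ring, e7]
    ring
  · rw [show 14 * ((2 * z - 1) / (14 * z - 6)) = (2 * (7 * z) + -7) / (1 * (7 * z) + -3) by
      rw [h7, show (1 * (7 * z) + -3 : ℂ) = 7 * z - 3 by ring]; field_simp; ring, e14]
    ring

lemma ff_w2 : ff ((2 * z - 1) / (14 * z - 6)) ^ 2 = (2 * (7 * z - 3) ^ 2) ^ 2 * ff z ^ 2 := by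
  obtain ⟨e1, e2, e7, e14⟩ := w2_G hz
  rw [ff_sq, ff_sq]
  unfold Gs
  simp only [zpow_one]
  rw [e1, e2, e7, e14]
  have h6 : om ^ 6 = 1 := by rw [show (6 : ℕ) = 3 * 2 by norm_num, pow_mul, om3, one_pow]
  linear_combination (4 * (7 * z - 3) ^ 4 * G z * G (2 * z) * G (7 * z) * G (14 * z)) * h6

lemma X1_w2 : X1 ((2 * z - 1) / (14 * z - 6)) ^ 2 = qq z ^ 4 * (64 * (Q (qq z) * (Q (qq z ^ 2))⁻¹ *
    (Q (qq z ^ 7) ^ 7)⁻¹ * (Q (qq z ^ 14)) ^ 7) ^ 2) := by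
  obtain ⟨e1, e2, e7, e14⟩ := w2_G hz
  have h0 := w2_aux hz
  have h7 : (14 * z - 6 : ℂ) = 2 * (7 * z - 3) := by ring
  have g1 := G_mul 1 z
  have g2 := G_mul 2 z
  have g7 := G_mul 7 z
  have g14 := G_mul 14 z
  push_cast at g1 g2 g7 g14
  rw [one_mul, pow_one] at g1
  have hq := norm_qq_lt hz
  have n1 := Q_ne hq
  have n2 := Q_ne_pow hq (d := 2) (by norm_num)
  have n7 := Q_ne_pow hq (d := 7) (by norm_num)
  have n14 := Q_ne_pow hq (d := 14) (by norm_num)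
  have ht := tt_ne z
  have ho := om_ne
  rw [X1_sq]
  unfold Gs
  have hq2 : qq z ^ 4 = tt z ^ 96 := by rw [← tt_pow]; ring
  rw [hq2, e1, e2, e7, e14, g1, g2, g7, g14, zpow_neg_one, zpow_one, zpow_neg, h7]
  norm_cast
  push_cast
  have h6 : om ^ 6 = 1 := by rw [show (6 : ℕ) = 3 * 2 by norm_num, pow_mul, om3, one_pow]
  field_simp
  rw [h6]
  ring_nf

lemma Y2_w2 : Y2 ((2 * z - 1) / (14 * z - 6)) = (Q (qq z) ^ 2 * (Q (qq z ^ 2))⁻¹ *
    (Q (qq z ^ 7) ^ 2)⁻¹ * (Q (qq z ^ 14))) ^ 4 := by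
  obtain ⟨e1, e2, e7, e14⟩ := w2_G hz
  have h0 := w2_aux hz
  have h7 : (14 * z - 6 : ℂ) = 2 * (7 * z - 3) := by ring
  have g1 := G_mul 1 z
  have g2 := G_mul 2 z
  have g7 := G_mul 7 z
  have g14 := G_mul 14 z
  push_cast at g1 g2 g7 g14
  rw [one_mul, pow_one] at g1
  have hq := norm_qq_lt hz
  have n1 := Q_ne hq
  have n2 := Q_ne_pow hq (d := 2) (by norm_num)
  have n7 := Q_ne_pow hq (d := 7) (by norm_num)
  have n14 := Q_ne_pow hq (d := 14) (by norm_num)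
  have ht := tt_ne z
  have ho := om_ne
  rw [Y2_eq]
  unfold Gs
  rw [e1, e2, e7, e14, g1, g2, g7, g14, zpow_neg, zpow_neg, h7]
  norm_cast
  push_cast
  field_simp

end w2

end Pool.Agent.W97.MT
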