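import Pool.Agent.W97.MT.Coef
import Pool.Agent.W646.MT.INJ
import Pool.Agent.W646.MT.LAT
import Pool.Agent.W646.MT.CP
import Pool.Agent.W646.MT.ARITH
import Pool.Agent.W349.MT.TORS
import Pool.Agent.W349.MT.SUB
import Pool.Agent.W349.MT.SUP
import Pool.Agent.W349.MT.ODE
import Pool.Agent.W349.MT.SIX
import Pool.Agent.W349.MT.MIN
import Pool.Agent.W349.MT.HINT
import Pool.Agent.W351.MT.HASSE
import Pool.Agent.W598.MT.TATE
import Pool.Agent.W598.MT.OLD
import Pool.Agent.W598.MT.QEXP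

/-!
Assembly.
-/

set_option autoImplicit false

open UpperHalfPlane MatrixGroups CongruenceSubgroup Filter Topology MeasureTheory
open scoped ModularForm Pointwise

namespace Pool.Agent.W97.MT

open Pool.Agent.W97.TW

lemma hcp : S_CP := Pool.Agent.W646.MT.s_cp
lemma hqe : S_QEXP := Pool.Agent.W598.MT.s_qexp
lemma hinj : S_INJ := Pool.Agent.W646.MT.s_inj
lemma htors : S_TORS := Pool.Agent.W349.MT.s_tors
lemma hode : S_ODE := Pool.Agent.W349.MT.s_ode
lemma hsub : S_SUB := Pool.Agent.W349.MT.s_sub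
lemma hsup : S_SUP := Pool.Agent.W349.MT.s_sup
lemma hsix : S_SIX := Pool.Agent.W349.MT.s_six
lemma hmin : S_MIN := Pool.Agent.W349.MT.s_min
lemma hhint : S_HINT := Pool.Agent.W349.MT.s_hint
lemma hasse : S_HASSE := Pool.Agent.W351.MT.s_hasse
lemma hold : S_OLD := Pool.Agent.W598.MT.s_old
lemma htate : S_TATE := Pool.Agent.W598.MT.s_tate
lemma harith : S_ARITH := Pool.Agent.W646.MT.s_arith
lemma hlat : S_LAT := Pool.Agent.W646.MT.s_lat

/-- the newform `η(z)η(2z)η(7z)η(14z)` -/
noncomputable def form14 : CuspForm (Gamma0 14 : Subgroup (GL (Fin 2) ℝ)) 2 := f14 hcp hqe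

lemma form14_of {w : ℂ} (hw : 0 < w.im) : form14 (ofComplex w) = ff w := by
  rw [ofComplex_apply_of_im_pos hw]; rfl

lemma line_eq (z : ℂ) (hz : 0 ≤ z.im) : Set.EqOn
    (fun t : ℝ => form14 (ofComplex (z + t * Complex.I))) (fun t : ℝ => ff (z + t * Complex.I))
    (Set.Ioi 0) := by
  intro t ht
  have ht' : 0 < t := ht
  exact form14_of (by rw [line_im]; linarith)

lemma prim_eq (z : ℂ) (hz : 0 ≤ z.im) :
    prim form14 z = 2 * Real.pi * ∫ t in Set.Ioi (0 : ℝ), ff (z + t * Complex.I) := by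
  unfold prim
  rw [setIntegral_congr_fun measurableSet_Ioi (line_eq z hz)]

lemma prim_rat (r : ℚ) : prim form14 (r : ℂ) = II r := prim_eq _ (by simp)

lemma prim_H (z : ℍ) : prim form14 z = F z := by
  rw [prim_eq _ z.im_pos.le]
  refine integral_line _ z.im_pos.le (ff_line_int _ (by rw [add_zero]; exact z.im_pos)) ?_
  have h1 : ContinuousAt (fun t : ℝ => F ((z : ℂ) + t * Complex.I)) 0 := by
    refine ContinuousAt.comp (g := F) (f := fun t : ℝ => (z : ℂ) + t * Complex.I) ?_ (by fun_prop)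
    simp only [Complex.ofReal_zero, zero_mul, add_zero]
    exact (F_diff z.im_pos).continuousAt
  have h2 := h1.tendsto
  simp only [Complex.ofReal_zero, zero_mul, add_zero] at h2
  exact h2.mono_left nhdsWithin_le_nhds

lemma isPeriod_iff (w : ℂ) : IsPeriod 14 form14 w ↔ IsPer w := by
  constructor
  · rintro ⟨γ, hγ, h⟩
    obtain ⟨a, b, c, d, hd, rfl⟩ := exists_mkSL γ
    rw [mkSL_mem] at hγ
    obtain ⟨c, rfl⟩ := hγ
    have h' : a * d - b * (14 * c) = 1 := by push_cast at hd; linarith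
    refine ⟨a, b, c, d, h', fun z hz => ?_⟩
    have h1 := h ⟨z, hz⟩
    rw [prim_H, prim_H, mkSL_smul] at h1
    push_cast at h1
    change F ((a * z + b) / (14 * c * z + d)) - F z = w at h1
    linear_combination h1
  · rintro ⟨a, b, c, d, h, hp⟩
    have h' : a * d - b * (((14 : ℕ) : ℤ) * c) = 1 := by push_cast; linarith
    refine ⟨mkSL a b (((14 : ℕ) : ℤ) * c) d h', (mkSL_mem _ _ _ _ h' 14).2 (dvd_mul_right _ _),
      fun z => ?_⟩
    rw [prim_H, prim_H, mkSL_smul]
    push_cast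
    rw [hp z z.im_pos]
    ring

lemma phi_conj (q : ℂ) (hq : ‖q‖ < 1) : phi (starRingEnd ℂ q) = starRingEnd ℂ (phi q) := by
  obtain ⟨Ξ, U, P, rΞ, rU, rP, tΞ, tU, tP⟩ := expansions hqe
  have h1 := rP (starRingEnd ℂ q) (by simpa using hq)
  have h2 := (rP q hq).map (starRingEnd ℂ) Complex.continuous_conj
  refine h1.unique (h2.congr_fun ?_ |> fun x => x)
  intro n
  simp only [Function.comp_apply, map_mul, map_pow, PowerSeries.coeff_map, eq_intCast]
  congr 1
  exact (map_intCast (starRingEnd ℂ) _).symm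

lemma qq_conj (z : ℂ) : qq (-(starRingEnd ℂ z)) = starRingEnd ℂ (qq z) := by
  unfold qq
  rw [← Complex.exp_conj]
  congr 1
  simp only [map_mul, Complex.conj_I, Complex.conj_ofReal]
  have : (starRingEnd ℂ) (2 : ℂ) = 2 := Complex.conj_ofNat 2
  rw [this]
  ring

lemma ff_conj {z : ℂ} (hz : 0 < z.im) : ff (-(starRingEnd ℂ z)) = starRingEnd ℂ (ff z) := by
  rw [ff_q, ff_q, qq_conj, phi_conj _ (norm_qq_lt hz), map_mul]

lemma II_conj (r : ℚ) : II (-r) = starRingEnd ℂ (II r) := by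
  unfold II
  rw [map_mul, ← integral_conj]
  have h2 : (starRingEnd ℂ) (2 * (Real.pi : ℂ)) = 2 * Real.pi := by
    rw [map_mul, Complex.conj_ofReal]
    congr 1
    exact Complex.conj_ofNat 2
  rw [h2]
  congr 1
  refine setIntegral_congr_fun measurableSet_Ioi fun t ht => ?_
  have ht' : 0 < t := ht
  rw [← ff_conj (by rw [line_im]; simpa using ht')]
  congr 1
  simp only [map_add, map_mul, Complex.conj_I, Complex.conj_ofReal]
  have : (starRingEnd ℂ) ((r : ℚ) : ℂ) = r := by
    have e : ((r : ℚ) : ℂ) = (((r : ℚ) : ℝ) : ℂ) := by push_cast; rfl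
    rw [e]; exact Complex.conj_ofReal _
  rw [this]
  push_cast
  ring

lemma II_add_one (r : ℚ) : II (r + 1) = II r := by
  unfold II
  congr 1
  refine setIntegral_congr_fun measurableSet_Ioi fun t ht => ?_
  have e : qq (((r + 1 : ℚ) : ℂ) + t * Complex.I) = qq ((r : ℂ) + t * Complex.I) := by
    unfold qq
    push_cast
    have : 2 * (Real.pi : ℂ) * Complex.I * ((r : ℂ) + 1 + t * Complex.I) =
        2 * Real.pi * Complex.I * ((r : ℂ) + t * Complex.I) + 2 * Real.pi * Complex.I := by ring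
    rw [this, Complex.exp_add, Complex.exp_two_pi_mul_I, mul_one]
  rw [ff_q, ff_q, e]

lemma II_zero_im : (II 0).im = 0 := by
  have h1 := II_conj 0
  rw [neg_zero] at h1
  have h2 := congrArg Complex.im h1
  rw [Complex.conj_im] at h2
  linarith

end Pool.Agent.W97.MT
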