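import Pool.Agent.W97.MT.Dim

/-!
Coefficients and Hecke eigenvalues.
-/

set_option autoImplicit false

open UpperHalfPlane MatrixGroups CongruenceSubgroup Filter Topology
open scoped ModularForm Pointwise

namespace Pool.Agent.W97.MT

open Pool.Agent.W97.TW

section coef

variable (hcp : S_CP) (hq : S_QEXP) {P : PowerSeries ℤ} (rP : Rep phi P)
include rP

lemma coeff_f14 (n : ℕ) : (qExpansion 1 (f14 hcp hq)).coeff n =
    ((PowerSeries.coeff n (PowerSeries.X * P) : ℤ) : ℂ) := by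
  have h1 := ModularFormClass.qExpansion_coeff_unique
    (Γ := (Gamma0 14 : Subgroup (GL (Fin 2) ℝ))) (k := 2)
    (c := fun n => ((PowerSeries.coeff n (PowerSeries.X * P) : ℤ) : ℂ)) one_pos one_mem0
    (f := f14 hcp hq) (fun τ => by
      have h2 : HasSum (fun n : ℕ => PowerSeries.coeff n (PowerSeries.map (Int.castRingHom ℂ)
        (PowerSeries.X * P)) * qq τ ^ n) (qq τ * phi (qq τ)) :=
          (Rep.X.mul rP) (qq τ) (norm_qq_lt τ.im_pos)
      simp only [PowerSeries.coeff_map, eq_intCast] at h2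
      rw [f14_apply, ff_q]
      have h3 : Function.Periodic.qParam 1 (τ : ℂ) = qq τ := qParam_one τ
      rw [h3]
      simpa only [smul_eq_mul] using h2) n
  exact h1.symm

lemma hecke_f14 (hP0 : PowerSeries.coeff 0 P = 1) {p : ℕ} (hp : p.Prime) (z : ℍ) :
    MT.hecke 14 p (f14 hcp hq) z =
      ((PowerSeries.coeff (p - 1) P : ℤ) : ℂ) * (f14 hcp hq) z := by
  obtain ⟨c, hc⟩ := dim_one (heckeForm (f14 hcp hq) hp) hcp hq
  have h1 : ∀ z : ℍ, heckeT 14 2 p (f14 hcp hq) z = c * (f14 hcp hq) z := hc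
  have h2 := hecke_rec (f14 hcp hq) hp.pos h1 1
  have h3 : A (f14 hcp hq) 1 = 1 := by
    unfold A
    rw [coeff_f14 hcp hq rP 1, show (1 : ℕ) = 0 + 1 by rfl, PowerSeries.coeff_succ_X_mul, hP0]
    norm_num
  have h4 : A (f14 hcp hq) p = ((PowerSeries.coeff (p - 1) P : ℤ) : ℂ) := by
    unfold A
    rw [coeff_f14 hcp hq rP p]
    obtain ⟨m, rfl⟩ : ∃ m, p = m + 1 := ⟨p - 1, by have := hp.pos; omega⟩
    rw [PowerSeries.coeff_succ_X_mul]
    rfl
  have h5 : B (f14 hcp hq) p 1 = A (f14 hcp hq) p := by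
    unfold B
    rw [if_neg (c := p ∣ 1) (fun h => hp.one_lt.ne' (Nat.dvd_one.1 h)), mul_zero, zero_add, mul_one]
  rw [h3, mul_one, h5, h4] at h2
  have h6 : MT.hecke 14 p (f14 hcp hq) z = heckeT 14 2 p (f14 hcp hq) z := by
    unfold MT.hecke heckeT
    norm_num
  rw [h6, h1, h2]

end coef

/-- the formal identities -/
lemma formal (hcp : S_CP) (hq : S_QEXP) {Ξ U P : PowerSeries ℤ} (rΞ : Rep xi Ξ) (rU : Rep ups U)
    (rP : Rep phi P) :
    PowerSeries.X * PowerSeries.derivative ℤ Ξ - 2 * Ξ =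
      P * (5 * (PowerSeries.X * Ξ) - 2 * U + 2 * PowerSeries.X ^ 3) ∧
    (5 * (PowerSeries.X * Ξ) - 2 * U + 2 * PowerSeries.X ^ 3) ^ 2 =
      4 * Ξ ^ 3 + 13 * PowerSeries.X ^ 2 * Ξ ^ 2 + 32 * PowerSeries.X ^ 4 * Ξ := by
  have rσ := (((Rep.C 5).mul (Rep.X.mul rΞ)).sub ((Rep.C 2).mul rU)).add
    ((Rep.C 2).mul (Rep.X.pow 3))
  have key : ∀ z : ℂ, 0 < z.im → qq z ^ 3 * RR z = 5 * (qq z * xi (qq z)) - 2 * ups (qq z) +
      2 * qq z ^ 3 := by
    intro z hz
    unfold RR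
    rw [← qq_X1 hz, ← qq_Y2 hz]
    ring
  constructor
  · rw [num 2, num 5]
    refine (rΞ.theta.sub ((Rep.C 2).mul rΞ)).unique ((rP.mul rσ).congr fun q hq1 => ?_)
    push_cast
    by_cases h0 : q = 0
    · rw [h0]; simp [xi_zero, ups_zero, phi_zero]
    · obtain ⟨z, hz, rfl⟩ := exists_qq hq1 h0
      rw [← key z hz, ← R0_q rΞ hz, R0_eq hcp hq z hz]
      ring
  · rw [num 2, num 5, num 4, num 13, num 32]
    refine (rσ.pow 2).unique ((((((Rep.C 4).mul (rΞ.pow 3)).add (((Rep.C 13).mul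
      (Rep.X.pow 2)).mul (rΞ.pow 2))).add (((Rep.C 32).mul (Rep.X.pow 4)).mul rΞ))).congr
      fun q hq1 => ?_)
    push_cast
    by_cases h0 : q = 0
    · rw [h0]; simp [xi_zero, ups_zero]; norm_num
    · obtain ⟨z, hz, rfl⟩ := exists_qq hq1 h0
      rw [← key z hz]
      have h1 := RR_sq hcp hq hz
      have h2 : (qq z ^ 3 * RR z) ^ 2 = qq z ^ 6 * RR z ^ 2 := by ring
      rw [h2, h1, ← qq_X1 hz]
      ring

/-- the coefficient modulo `p` -/
lemma coeff_mod (hcp : S_CP) (hq : S_QEXP) (hasse : S_HASSE) {Ξ U P : PowerSeries ℤ}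
    (rΞ : Rep xi Ξ) (rU : Rep ups U) (rP : Rep phi P) (tΞ : Tr Ξ lxi) (tU : Tr U lups)
    {p : ℕ} (hp : p.Prime) (hp2 : p ≠ 2) :
    ((PowerSeries.coeff (p - 1) P : ℤ) : ZMod p) = (ap E14 p : ZMod p) := by
  have : Fact p.Prime := ⟨hp⟩
  obtain ⟨h1, h2⟩ := formal hcp hq rΞ rU rP
  set m := PowerSeries.map (Int.castRingHom (ZMod p)) with hm
  have hX : m PowerSeries.X = PowerSeries.X := PowerSeries.map_X _
  have hd : m (PowerSeries.derivative ℤ Ξ) = PowerSeries.derivative (ZMod p) (m Ξ) := by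
    ext n
    simp [hm, PowerSeries.coeff_derivative]
  have h3 := congrArg m h1
  have h4 := congrArg m h2
  simp only [map_sub, map_add, map_mul, map_pow, hX, hd, map_ofNat] at h3 h4
  have hcc : ∀ V : PowerSeries ℤ, PowerSeries.constantCoeff (m V) =
      ((PowerSeries.constantCoeff V : ℤ) : ZMod p) := by
    intro V
    rw [← PowerSeries.coeff_zero_eq_constantCoeff_apply, ← PowerSeries.coeff_zero_eq_constantCoeff_apply,
      hm, PowerSeries.coeff_map]
    simp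
  have cΞ : PowerSeries.constantCoeff Ξ = 1 := by
    have := tΞ 0 (by norm_num)
    simpa [lxi] using this
  have cU : PowerSeries.constantCoeff U = 1 := by
    have := tU 0 (by norm_num)
    simpa [lups] using this
  have h5 := hasse p hp2 (m P) (m Ξ) (5 * (PowerSeries.X * m Ξ) - 2 * m U + 2 * PowerSeries.X ^ 3)
    (by rw [hcc, cΞ]; simp)
    (by
      simp only [map_sub, map_add, map_mul, map_pow, PowerSeries.constantCoeff_X, map_ofNat]
      rw [hcc, hcc, cU]
      simp)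
    h3 h4
  rw [← h5, hm, PowerSeries.coeff_map]
  simp

end Pool.Agent.W97.MT
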