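import Pool.Agent.W97.MT.Eta

/-!
Functions of `q = e^{2πiz}` near `i∞`.
-/

set_option autoImplicit false

open Filter Topology PowerSeries

namespace Pool.Agent.W97.MT

open Pool.Agent.W97.TW

/-- the neighbourhoods of `i∞` -/
def iI : Filter ℂ := comap Complex.im atTop

lemma iI_eventually {P : ℂ → Prop} : (∀ᶠ z in iI, P z) ↔ ∃ T : ℝ, 0 ≤ T ∧ ∀ z : ℂ, T < z.im → P z := by
  unfold iI
  rw [eventually_comap, eventually_atTop]
  constructor
  · rintro ⟨T, hT⟩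
    exact ⟨max T 0, le_max_right _ _, fun z hz => hT z.im (le_trans (le_max_left _ _) hz.le) z rfl⟩
  · rintro ⟨T, -, hT⟩
    refine ⟨T + 1, fun b hb a ha => hT a ?_⟩
    rw [ha]; linarith

instance : NeBot iI := by
  unfold iI
  refine comap_neBot fun t ht => ?_
  obtain ⟨T, hT⟩ := mem_atTop_sets.1 ht
  exact ⟨Complex.I * T, by simpa using hT T le_rfl⟩

lemma iI_pos : ∀ᶠ z in iI, 0 < z.im := iI_eventually.2 ⟨0, le_rfl, fun _ h => h⟩

lemma iI_gt (T : ℝ) : ∀ᶠ z in iI, T < z.im :=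
  iI_eventually.2 ⟨max T 0, le_max_right _ _, fun _ h => lt_of_le_of_lt (le_max_left _ _) h⟩

lemma tendsto_im : Tendsto Complex.im iI atTop := tendsto_comap

lemma tendsto_qq : Tendsto qq iI (𝓝 0) := by
  rw [tendsto_zero_iff_norm_tendsto_zero]
  have h1 : Tendsto (fun z : ℂ => Real.exp (-2 * Real.pi * z.im)) iI (𝓝 0) := by
    refine Real.tendsto_exp_atBot.comp ?_
    have h2 : -2 * Real.pi < 0 := by have := Real.pi_pos; linarith
    exact tendsto_im.const_mul_atTop_of_neg h2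
  refine h1.congr fun z => ?_
  rw [norm_qq]

/-- `g z = h (qq z)` near `i∞` with `h` analytic at `0` with value `v` -/
def QV (g : ℂ → ℂ) (v : ℂ) : Prop :=
  ∃ h : ℂ → ℂ, AnalyticAt ℂ h 0 ∧ h 0 = v ∧ ∀ᶠ z in iI, g z = h (qq z)

namespace QV

variable {f g : ℂ → ℂ} {u v : ℂ}

lemma comp {h : ℂ → ℂ} (hh : AnalyticAt ℂ h 0) : QV (fun z => h (qq z)) (h 0) :=
  ⟨h, hh, rfl, Eventually.of_forall fun _ => rfl⟩

lemma of_eq (hg : QV g v) (h : ∀ᶠ z in iI, f z = g z) : QV f v := by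
  obtain ⟨k, h1, h2, h3⟩ := hg
  exact ⟨k, h1, h2, (h.and h3).mono fun z hz => hz.1.trans hz.2⟩

lemma of_val (hg : QV g v) (h : v = u) : QV g u := h ▸ hg

lemma const (c : ℂ) : QV (fun _ => c) c := comp (h := fun _ => c) analyticAt_const

lemma qq' : QV qq 0 := comp (h := fun q => q) analyticAt_id

lemma add (hf : QV f u) (hg : QV g v) : QV (fun z => f z + g z) (u + v) := by
  obtain ⟨h, h1, h2, h3⟩ := hf
  obtain ⟨k, k1, k2, k3⟩ := hg
  exact ⟨fun q => h q + k q, h1.add k1, by simp only [h2, k2], (h3.and k3).mono fun z hz => by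
    dsimp only; rw [hz.1, hz.2]⟩

lemma sub (hf : QV f u) (hg : QV g v) : QV (fun z => f z - g z) (u - v) := by
  obtain ⟨h, h1, h2, h3⟩ := hf
  obtain ⟨k, k1, k2, k3⟩ := hg
  exact ⟨fun q => h q - k q, h1.sub k1, by simp only [h2, k2], (h3.and k3).mono fun z hz => by
    dsimp only; rw [hz.1, hz.2]⟩

lemma mul (hf : QV f u) (hg : QV g v) : QV (fun z => f z * g z) (u * v) := by
  obtain ⟨h, h1, h2, h3⟩ := hf
  obtain ⟨k, k1, k2, k3⟩ := hg
  exact ⟨fun q => h q * k q, h1.mul k1, by simp only [h2, k2], (h3.and k3).mono fun z hz => by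
    dsimp only; rw [hz.1, hz.2]⟩

lemma pow (hf : QV f u) (n : ℕ) : QV (fun z => f z ^ n) (u ^ n) := by
  obtain ⟨h, h1, h2, h3⟩ := hf
  exact ⟨fun q => h q ^ n, h1.pow n, by simp only [h2], h3.mono fun z hz => by
    dsimp only; rw [hz]⟩

lemma inv (hf : QV f u) (hu : u ≠ 0) : QV (fun z => (f z)⁻¹) u⁻¹ := by
  obtain ⟨h, h1, h2, h3⟩ := hf
  exact ⟨fun q => (h q)⁻¹, h1.inv (by rwa [h2]), by simp only [h2], h3.mono fun z hz => by
    dsimp only; rw [hz]⟩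

lemma tendsto (hf : QV f u) : Tendsto f iI (𝓝 u) := by
  obtain ⟨h, h1, h2, h3⟩ := hf
  have : Tendsto (fun z => h (qq z)) iI (𝓝 (h 0)) := h1.continuousAt.tendsto.comp tendsto_qq
  rw [h2] at this
  exact this.congr' (h3.mono fun z hz => hz.symm)

lemma val_unique (hf : QV f u) (hg : QV f v) : u = v := tendsto_nhds_unique hf.tendsto hg.tendsto

lemma bounded (hf : QV f u) : ∃ B T : ℝ, 0 ≤ T ∧ ∀ z : ℂ, T < z.im → ‖f z‖ ≤ B := by
  have h1 : ∀ᶠ z in iI, ‖f z‖ ≤ ‖u‖ + 1 := by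
    have := hf.tendsto.norm.eventually (eventually_le_nhds (show ‖u‖ < ‖u‖ + 1 by linarith))
    exact this
  obtain ⟨T, hT, h2⟩ := iI_eventually.1 h1
  exact ⟨_, T, hT, h2⟩

lemma bounded' (hf : QV f u) : ∃ B T : ℝ, ∀ z : ℂ, T < z.im → ‖f z‖ ≤ B := by
  obtain ⟨B, T, -, h⟩ := hf.bounded
  exact ⟨B, T, h⟩

/-- the derivative -/
lemma deriv' (hf : QV f u) : ∃ h : ℂ → ℂ, AnalyticAt ℂ h 0 ∧
    ∀ᶠ z in iI, HasDerivAt f (2 * Real.pi * Complex.I * (qq z * h (qq z))) z := by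
  obtain ⟨h, h1, h2, h3⟩ := hf
  refine ⟨deriv h, h1.deriv, ?_⟩
  obtain ⟨T, hT, h4⟩ := iI_eventually.1 h3
  have h5 : ∀ᶠ z in iI, AnalyticAt ℂ h (qq z) := tendsto_qq.eventually h1.eventually_analyticAt
  filter_upwards [iI_gt T, h5] with z hz hz5
  have h6 : HasDerivAt h (deriv h (qq z)) (qq z) := hz5.differentiableAt.hasDerivAt
  have h7 : HasDerivAt qq (qq z * (2 * Real.pi * Complex.I)) z := by
    unfold qq
    have h8 : HasDerivAt (fun z : ℂ => 2 * Real.pi * Complex.I * z) (2 * Real.pi * Complex.I) z := by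
      simpa using (hasDerivAt_id z).const_mul (2 * Real.pi * Complex.I : ℂ)
    exact h8.cexp
  have h9 := h6.comp z h7
  have h10 : f =ᶠ[𝓝 z] h ∘ qq := by
    have h11 : {w : ℂ | T < w.im} ∈ 𝓝 z := (isOpen_lt continuous_const Complex.continuous_im).mem_nhds hz
    filter_upwards [h11] with w hw
    exact h4 w hw
  refine (h9.congr_of_eventuallyEq h10).congr_deriv ?_
  ring

end QV

lemma RepC.of_X_pow_mul {h : ℂ → ℂ} {ψ : ℂ⟦X⟧} {m : ℕ} (hf : RepC h (PowerSeries.X ^ m * ψ)) :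
    ∃ k : ℂ → ℂ, RepC k ψ ∧ ∀ q : ℂ, ‖q‖ < 1 → h q = q ^ m * k q := by
  have hs : ∀ q : ℂ, ‖q‖ < 1 → Summable fun n : ℕ => coeff n ψ * q ^ n := by
    intro q hq
    by_cases h0 : q = 0
    · refine summable_of_ne_finset_zero (s := {0}) fun n hn => ?_
      have : n ≠ 0 := by simpa using hn
      rw [h0, zero_pow this, mul_zero]
    · have h1 := (hf q hq).summable
      have h2 := (summable_nat_add_iff m).2 h1
      have h3 := h2.mul_left ((q ^ m)⁻¹)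
      refine h3.congr fun n => ?_
      rw [coeff_X_pow_mul', if_pos (by omega), Nat.add_sub_cancel, pow_add]
      field_simp
  refine ⟨fun q => ∑' n : ℕ, coeff n ψ * q ^ n, fun q hq => (hs q hq).hasSum, fun q hq => ?_⟩
  have h1 : RepC (fun q => q ^ m * ∑' n : ℕ, coeff n ψ * q ^ n) (PowerSeries.X ^ m * ψ) :=
    (RepC.X.pow m).mul fun q hq => (hs q hq).hasSum
  exact (hf q hq).unique (h1 q hq)

lemma Rep.of_dvd {h : ℂ → ℂ} {φ : ℤ⟦X⟧} {m : ℕ} (hf : Rep h φ) (hd : PowerSeries.X ^ m ∣ φ) :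
    ∃ k : ℂ → ℂ, AnalyticAt ℂ k 0 ∧ ∀ q : ℂ, ‖q‖ < 1 → h q = q ^ m * k q := by
  obtain ⟨ψ, rfl⟩ := hd
  have h1 : RepC h (PowerSeries.X ^ m * (PowerSeries.map (Int.castRingHom ℂ) ψ)) := by
    have := hf
    unfold Rep at this
    rwa [map_mul, map_pow, PowerSeries.map_X] at this
  obtain ⟨k, hk, h2⟩ := h1.of_X_pow_mul
  exact ⟨k, hk.analyticAt_zero, h2⟩

lemma Rep.analyticAt_zero {h : ℂ → ℂ} {φ : ℤ⟦X⟧} (hf : Rep h φ) : AnalyticAt ℂ h 0 :=
  RepC.analyticAt_zero hf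

/-- functions on the upper half-plane agreeing up to sign -/
lemma eq_or_eq_neg {f g : ℂ → ℂ} (hf : ContinuousOn f {z : ℂ | 0 < z.im})
    (hg : ContinuousOn g {z : ℂ | 0 < z.im}) (h : ∀ z : ℂ, 0 < z.im → f z ^ 2 = g z ^ 2)
    (h0 : ∀ z : ℂ, 0 < z.im → g z ≠ 0) :
    (∀ z : ℂ, 0 < z.im → f z = g z) ∨ (∀ z : ℂ, 0 < z.im → f z = -g z) := by
  have hp : IsPreconnected {z : ℂ | 0 < z.im} := (convex_halfSpace_im_gt 0).isPreconnected
  have := hp.eq_or_eq_neg_of_sq_eq hf hg (fun z hz => h z hz) (fun {z} hz => h0 z hz)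
  exact this

end Pool.Agent.W97.MT
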