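import Pool.Agent.W97.MT.AL
import Pool.Agent.W97.MT.QV

/-!
The behaviour at the four cusps of `X_0(14)`.
-/

set_option autoImplicit false

open Filter Topology

namespace Pool.Agent.W97.MT

open Pool.Agent.W97.TW

lemma H_open : IsOpen {z : ℂ | 0 < z.im} := isOpen_lt continuous_const Complex.continuous_im

lemma eta_diff {z : ℂ} (hz : 0 < z.im) (n : ℕ) (hn : 0 < n) :
    DifferentiableAt ℂ (fun w : ℂ => ModularForm.eta (n * w)) z := by
  have h3 := ModularForm.differentiableAt_eta_of_mem_upperHalfPlaneSet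
    (show (n : ℂ) * z ∈ UpperHalfPlane.upperHalfPlaneSet from im_mul hz n hn)
  exact DifferentiableAt.comp z h3 (by fun_prop)

lemma eta_diffs {z : ℂ} (hz : 0 < z.im) : DifferentiableAt ℂ (fun w : ℂ => ModularForm.eta w) z ∧
    DifferentiableAt ℂ (fun w : ℂ => ModularForm.eta (2 * w)) z ∧
    DifferentiableAt ℂ (fun w : ℂ => ModularForm.eta (7 * w)) z ∧
    DifferentiableAt ℂ (fun w : ℂ => ModularForm.eta (14 * w)) z := by
  have h1 := eta_diff hz 1 (by norm_num)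
  have h2 := eta_diff hz 2 (by norm_num)
  have h7 := eta_diff hz 7 (by norm_num)
  have h14 := eta_diff hz 14 (by norm_num)
  push_cast at h1 h2 h7 h14
  simp only [one_mul] at h1
  exact ⟨h1, h2, h7, h14⟩

lemma eta_nes {z : ℂ} (hz : 0 < z.im) : ModularForm.eta z ≠ 0 ∧ ModularForm.eta (2 * z) ≠ 0 ∧
    ModularForm.eta (7 * z) ≠ 0 ∧ ModularForm.eta (14 * z) ≠ 0 := by
  have h2 := ModularForm.eta_ne_zero (im_mul hz 2 (by norm_num))
  have h7 := ModularForm.eta_ne_zero (im_mul hz 7 (by norm_num))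
  have h14 := ModularForm.eta_ne_zero (im_mul hz 14 (by norm_num))
  push_cast at h2 h7 h14
  exact ⟨ModularForm.eta_ne_zero hz, h2, h7, h14⟩

lemma ff_ne {z : ℂ} (hz : 0 < z.im) : ff z ≠ 0 := by
  obtain ⟨e1, e2, e7, e14⟩ := eta_nes hz
  exact mul_ne_zero (mul_ne_zero (mul_ne_zero e1 e2) e7) e14

lemma X1_ne {z : ℂ} (hz : 0 < z.im) : X1 z ≠ 0 := by
  obtain ⟨e1, e2, e7, e14⟩ := eta_nes hz
  unfold X1
  positivity

lemma ff_diff {z : ℂ} (hz : 0 < z.im) : DifferentiableAt ℂ ff z := by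
  obtain ⟨e1, e2, e7, e14⟩ := eta_diffs hz
  exact ((e1.mul e2).mul e7).mul e14

lemma X1_diff {z : ℂ} (hz : 0 < z.im) : DifferentiableAt ℂ X1 z := by
  obtain ⟨e1, e2, e7, e14⟩ := eta_diffs hz
  obtain ⟨n1, n2, n7, n14⟩ := eta_nes hz
  exact (((e1.inv n1).mul e2).mul (e7.pow 7)).mul ((e14.pow 7).inv (pow_ne_zero _ n14))

lemma Y2_diff {z : ℂ} (hz : 0 < z.im) : DifferentiableAt ℂ Y2 z := by
  obtain ⟨e1, e2, e7, e14⟩ := eta_diffs hz
  obtain ⟨n1, n2, n7, n14⟩ := eta_nes hz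
  exact ((((e1.pow 4).inv (pow_ne_zero _ n1)).mul (e2.pow 8)).mul (e7.pow 4)).mul
    ((e14.pow 8).inv (pow_ne_zero _ n14))

/-- the data at a cusp -/
structure IsCusp (m j : ℂ → ℂ) (x y : ℂ) : Prop where
  pos : ∀ z : ℂ, 0 < z.im → 0 < (m z).im
  der : ∀ z : ℂ, 0 < z.im → HasDerivAt m (j z) z
  jne : ∀ z : ℂ, 0 < z.im → j z ≠ 0
  jcont : ContinuousOn j {z : ℂ | 0 < z.im}
  ffj : ∀ z : ℂ, 0 < z.im → (ff (m z) * j z) ^ 2 = ff z ^ 2
  X : QV (fun z => X1 (m z)) x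
  Y : QV (fun z => Y2 (m z)) y

lemma Q_analytic {h : ℂ → ℂ} (hh : AnalyticAt ℂ h 0) (h0 : h 0 = 0) : AnalyticAt ℂ (fun q => Q (h q)) 0 := by
  have h1 : AnalyticAt ℂ Q 0 := Q_diff.analyticAt (Metric.ball_mem_nhds _ one_pos)
  refine AnalyticAt.fun_comp (g := Q) ?_ hh
  rwa [h0]

lemma Qq_analytic (d : ℕ) (hd : d ≠ 0) : AnalyticAt ℂ (fun q => Q (q ^ d)) 0 :=
  Q_analytic (by fun_prop) (by simp [hd])

lemma QV_Q (d : ℕ) (hd : d ≠ 0) : QV (fun z => Q (qq z ^ d)) 1 := by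
  refine (QV.comp (Qq_analytic d hd)).of_val ?_
  simp [hd, Q_zero]

lemma QV_Q1 : QV (fun z => Q (qq z)) 1 := by
  have := QV_Q 1 one_ne_zero
  simpa using this

/-- the sign of a square root -/
lemma QV_of_sq {f g : ℂ → ℂ} {v : ℂ} (hf : ContinuousOn f {z : ℂ | 0 < z.im})
    (hg : ContinuousOn g {z : ℂ | 0 < z.im}) (h : ∀ z : ℂ, 0 < z.im → f z ^ 2 = g z ^ 2)
    (h0 : ∀ z : ℂ, 0 < z.im → g z ≠ 0) (hv : QV g v) : QV f v ∨ QV f (-v) := by
  rcases eq_or_eq_neg hf hg h h0 with h1 | h1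
  · left
    exact hv.of_eq (iI_pos.mono fun z hz => h1 z hz)
  · right
    refine (((QV.const (-1)).mul hv).of_eq (iI_pos.mono fun z hz => ?_)).of_val (by ring)
    rw [h1 z hz]; ring

lemma Q_contOn (d : ℕ) (hd : d ≠ 0) : ContinuousOn (fun z => Q (qq z ^ d)) {z : ℂ | 0 < z.im} := by
  refine Q_diff.continuousOn.comp (t := Metric.ball 0 1) ?_ ?_
  · unfold qq; fun_prop
  · intro z hz
    rw [Metric.mem_ball, dist_zero_right, norm_pow]
    exact pow_lt_one₀ (norm_nonneg _) (norm_qq_lt hz) hd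

lemma Q_contOn1 : ContinuousOn (fun z => Q (qq z)) {z : ℂ | 0 < z.im} := by
  have := Q_contOn 1 one_ne_zero
  simpa using this

lemma X1_cont : ContinuousOn X1 {z : ℂ | 0 < z.im} := fun _ hz =>
  (X1_diff hz).continuousAt.continuousWithinAt

lemma Y2_cont : ContinuousOn Y2 {z : ℂ | 0 < z.im} := fun _ hz =>
  (Y2_diff hz).continuousAt.continuousWithinAt

lemma ff_cont : ContinuousOn ff {z : ℂ | 0 < z.im} := fun _ hz =>
  (ff_diff hz).continuousAt.continuousWithinAt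

lemma qq_cont : Continuous qq := by unfold qq; fun_prop

/-- `z ↦ -1/(14z)` -/
noncomputable def m14 (z : ℂ) : ℂ := -1 / (14 * z)

/-- `z ↦ (7z-4)/(14z-7)` -/
noncomputable def m7 (z : ℂ) : ℂ := (7 * z - 4) / (14 * z - 7)

/-- `z ↦ (2z-1)/(14z-6)` -/
noncomputable def m2 (z : ℂ) : ℂ := (2 * z - 1) / (14 * z - 6)

/-- derivative of `m14` -/
noncomputable def j14 (z : ℂ) : ℂ := (14 * z ^ 2)⁻¹

/-- derivative of `m7` -/
noncomputable def j7 (z : ℂ) : ℂ := (7 * (2 * z - 1) ^ 2)⁻¹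

/-- derivative of `m2` -/
noncomputable def j2 (z : ℂ) : ℂ := (2 * (7 * z - 3) ^ 2)⁻¹

lemma Q_nes {z : ℂ} (hz : 0 < z.im) : Q (qq z) ≠ 0 ∧ Q (qq z ^ 2) ≠ 0 ∧ Q (qq z ^ 7) ≠ 0 ∧
    Q (qq z ^ 14) ≠ 0 :=
  ⟨Q_ne (norm_qq_lt hz), Q_ne_pow (norm_qq_lt hz) (by norm_num),
    Q_ne_pow (norm_qq_lt hz) (by norm_num), Q_ne_pow (norm_qq_lt hz) (by norm_num)⟩

lemma cusp14_core : (∀ z : ℂ, 0 < z.im → 0 < (m14 z).im) ∧
    (∀ z : ℂ, 0 < z.im → HasDerivAt m14 (j14 z) z) ∧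
    (∀ z : ℂ, 0 < z.im → j14 z ≠ 0) ∧ ContinuousOn j14 {z : ℂ | 0 < z.im} ∧
    (∀ z : ℂ, 0 < z.im → (ff (m14 z) * j14 z) ^ 2 = ff z ^ 2) ∧ QV (fun z => Y2 (m14 z)) 49 := by
  refine ⟨fun z hz => w14_pos hz, fun z hz => ?_, fun z hz => ?_, ?_, fun z hz => ?_, ?_⟩
  · have h0 := z_ne hz
    have h1 : HasDerivAt (fun w : ℂ => 14 * w) 14 z := by
      simpa using (hasDerivAt_id z).const_mul (14 : ℂ)
    have h2 := (hasDerivAt_const z (-1 : ℂ)).div h1 (mul_ne_zero (by norm_num) h0)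
    unfold m14 j14
    refine h2.congr_deriv ?_
    field_simp
    ring
  · have h0 := z_ne hz
    exact inv_ne_zero (mul_ne_zero (by norm_num) (pow_ne_zero 2 h0))
  · intro z hz
    have h0 := z_ne hz
    unfold j14
    exact ContinuousAt.continuousWithinAt (ContinuousAt.inv₀ (by fun_prop)
      (mul_ne_zero (by norm_num) (pow_ne_zero 2 h0)))
  · have h0 := z_ne hz
    unfold m14 j14
    rw [mul_pow, ff_w14 hz]
    field_simp
  · have q2 := QV_Q 2 (by norm_num)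
    have q7 := QV_Q 7 (by norm_num)
    have q14 := QV_Q 14 (by norm_num)
    have h := ((QV.const 49).mul ((((((QV_Q1.pow 2).inv (by norm_num)).mul q2).mul (q7.pow 2)).mul
      (q14.inv one_ne_zero)).pow 4)).of_val (show _ = (49 : ℂ) by norm_num)
    refine h.of_eq (iI_pos.mono fun z hz => ?_)
    exact Y2_w14 hz

lemma comp_cont {m j g : ℂ → ℂ} (hp : ∀ z : ℂ, 0 < z.im → 0 < (m z).im)
    (hd : ∀ z : ℂ, 0 < z.im → HasDerivAt m (j z) z) (hg : ContinuousOn g {z : ℂ | 0 < z.im}) :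
    ContinuousOn (fun z => g (m z)) {z : ℂ | 0 < z.im} :=
  hg.comp (fun z hz => (hd z hz).continuousAt.continuousWithinAt) fun z hz => hp z hz

lemma cusp14 : IsCusp m14 j14 8 49 ∨ IsCusp m14 j14 (-8) 49 := by
  obtain ⟨h1, h2, h3, h4, h5, h6⟩ := cusp14_core
  have q2 := QV_Q 2 (by norm_num)
  have q7 := QV_Q 7 (by norm_num)
  have q14 := QV_Q 14 (by norm_num)
  have h := ((QV.const 8).mul (((((QV_Q1.pow 7).inv (by norm_num)).mul (q2.pow 7)).mul q7).mul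
      (q14.inv one_ne_zero))).of_val (show _ = (8 : ℂ) by norm_num)
  have c1 := Q_contOn1
  have c2 := Q_contOn 2 (by norm_num)
  have c7 := Q_contOn 7 (by norm_num)
  have c14 := Q_contOn 14 (by norm_num)
  have e : ∀ z : ℂ, 0 < z.im → X1 (m14 z) ^ 2 = (8 * ((Q (qq z) ^ 7)⁻¹ * Q (qq z ^ 2) ^ 7 *
      Q (qq z ^ 7) * (Q (qq z ^ 14))⁻¹)) ^ 2 := fun z hz => by
    rw [mul_pow]
    have := X1_w14 hz
    unfold m14
    rw [this]
    norm_num
  have e0 : ∀ z : ℂ, 0 < z.im → 8 * ((Q (qq z) ^ 7)⁻¹ * Q (qq z ^ 2) ^ 7 *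
      Q (qq z ^ 7) * (Q (qq z ^ 14))⁻¹) ≠ 0 := fun z hz => by
    obtain ⟨n1, n2, n7, n14⟩ := Q_nes hz
    exact mul_ne_zero (by norm_num) (by positivity)
  have c : ContinuousOn (fun z => 8 * ((Q (qq z) ^ 7)⁻¹ * Q (qq z ^ 2) ^ 7 *
      Q (qq z ^ 7) * (Q (qq z ^ 14))⁻¹)) {z : ℂ | 0 < z.im} :=
    continuousOn_const.mul (((((c1.pow 7).inv₀ fun z hz => pow_ne_zero _ (Q_nes hz).1).mul
      (c2.pow 7)).mul c7).mul (c14.inv₀ fun z hz => (Q_nes hz).2.2.2))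
  rcases QV_of_sq (comp_cont h1 h2 X1_cont) c e e0 h with h7 | h7
  · exact Or.inl ⟨h1, h2, h3, h4, h5, h7, h6⟩
  · exact Or.inr ⟨h1, h2, h3, h4, h5, h7, h6⟩

lemma cusp7_core : (∀ z : ℂ, 0 < z.im → 0 < (m7 z).im) ∧
    (∀ z : ℂ, 0 < z.im → HasDerivAt m7 (j7 z) z) ∧
    (∀ z : ℂ, 0 < z.im → j7 z ≠ 0) ∧ ContinuousOn j7 {z : ℂ | 0 < z.im} ∧
    (∀ z : ℂ, 0 < z.im → (ff (m7 z) * j7 z) ^ 2 = ff z ^ 2) ∧ QV (fun z => Y2 (m7 z)) 0 := by
  have hne : ∀ z : ℂ, 0 < z.im → (7 : ℂ) * (2 * z - 1) ^ 2 ≠ 0 := fun z hz =>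
    mul_ne_zero (by norm_num) (pow_ne_zero 2 (w7_aux hz))
  refine ⟨fun z hz => w7_pos hz, fun z hz => ?_, fun z hz => inv_ne_zero (hne z hz), ?_,
    fun z hz => ?_, ?_⟩
  · have h0 := w7_aux hz
    have h7 : (14 * z - 7 : ℂ) = 7 * (2 * z - 1) := by ring
    have h1 : HasDerivAt (fun w : ℂ => 14 * w - 7) 14 z := by
      simpa using ((hasDerivAt_id z).const_mul (14 : ℂ)).sub_const 7
    have h1' : HasDerivAt (fun w : ℂ => 7 * w - 4) 7 z := by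
      simpa using ((hasDerivAt_id z).const_mul (7 : ℂ)).sub_const 4
    have h2 := h1'.div h1 (by rw [h7]; exact mul_ne_zero (by norm_num) h0)
    unfold m7 j7
    refine h2.congr_deriv ?_
    rw [h7]
    field_simp
    ring
  · intro z hz
    unfold j7
    exact ContinuousAt.continuousWithinAt (ContinuousAt.inv₀ (by fun_prop) (hne z hz))
  · have h0 := w7_aux hz
    unfold m7 j7
    rw [mul_pow, ff_w7 hz]
    field_simp
  · have q2 := QV_Q 2 (by norm_num)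
    have q7 := QV_Q 7 (by norm_num)
    have q14 := QV_Q 14 (by norm_num)
    have h := ((QV.qq'.pow 3).mul ((QV.const 49).mul ((((QV_Q1.mul ((q2.pow 2).inv
      (by norm_num))).mul (q7.inv (by norm_num))).mul (q14.pow 2)).pow 4))).of_val
        (show _ = (0 : ℂ) by norm_num)
    refine h.of_eq (iI_pos.mono fun z hz => ?_)
    exact Y2_w7 hz

lemma cusp7 : IsCusp m7 j7 1 0 ∨ IsCusp m7 j7 (-1) 0 := by
  obtain ⟨h1, h2, h3, h4, h5, h6⟩ := cusp7_core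
  have q2 := QV_Q 2 (by norm_num)
  have q7 := QV_Q 7 (by norm_num)
  have q14 := QV_Q 14 (by norm_num)
  have h := ((((QV_Q1.pow 7).mul ((q2.pow 7).inv (by norm_num))).mul (q7.inv one_ne_zero)).mul
      q14).of_val (show _ = (1 : ℂ) by norm_num)
  have c1 := Q_contOn1
  have c2 := Q_contOn 2 (by norm_num)
  have c7 := Q_contOn 7 (by norm_num)
  have c14 := Q_contOn 14 (by norm_num)
  have e : ∀ z : ℂ, 0 < z.im → X1 (m7 z) ^ 2 = (Q (qq z) ^ 7 * (Q (qq z ^ 2) ^ 7)⁻¹ *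
    (Q (qq z ^ 7))⁻¹ * (Q (qq z ^ 14))) ^ 2 := fun z hz => X1_w7 hz
  have e0 : ∀ z : ℂ, 0 < z.im → (Q (qq z) ^ 7 * (Q (qq z ^ 2) ^ 7)⁻¹ *
    (Q (qq z ^ 7))⁻¹ * (Q (qq z ^ 14))) ≠ 0 := fun z hz => by
    obtain ⟨n1, n2, n7, n14⟩ := Q_nes hz
    positivity
  have c : ContinuousOn (fun z => Q (qq z) ^ 7 * (Q (qq z ^ 2) ^ 7)⁻¹ *
    (Q (qq z ^ 7))⁻¹ * (Q (qq z ^ 14))) {z : ℂ | 0 < z.im} :=
    ((((c1.pow 7).mul ((c2.pow 7).inv₀ fun z hz => pow_ne_zero _ (Q_nes hz).2.1)).mul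
      (c7.inv₀ fun z hz => (Q_nes hz).2.2.1)).mul c14)
  rcases QV_of_sq (comp_cont h1 h2 X1_cont) c e e0 h with h7 | h7
  · exact Or.inl ⟨h1, h2, h3, h4, h5, h7, h6⟩
  · exact Or.inr ⟨h1, h2, h3, h4, h5, h7, h6⟩

lemma cusp2 : IsCusp m2 j2 0 1 := by
  have hne : ∀ z : ℂ, 0 < z.im → (2 : ℂ) * (7 * z - 3) ^ 2 ≠ 0 := fun z hz =>
    mul_ne_zero (by norm_num) (pow_ne_zero 2 (w2_aux hz))
  have hpos : ∀ z : ℂ, 0 < z.im → 0 < (m2 z).im := fun z hz => w2_pos hz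
  have hder : ∀ z : ℂ, 0 < z.im → HasDerivAt m2 (j2 z) z := fun z hz => by
    have h0 := w2_aux hz
    have h7 : (14 * z - 6 : ℂ) = 2 * (7 * z - 3) := by ring
    have h1 : HasDerivAt (fun w : ℂ => 14 * w - 6) 14 z := by
      simpa using ((hasDerivAt_id z).const_mul (14 : ℂ)).sub_const 6
    have h1' : HasDerivAt (fun w : ℂ => 2 * w - 1) 2 z := by
      simpa using ((hasDerivAt_id z).const_mul (2 : ℂ)).sub_const 1
    have h2 := h1'.div h1 (by rw [h7]; exact mul_ne_zero (by norm_num) h0)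
    unfold m2 j2
    refine h2.congr_deriv ?_
    rw [h7]
    field_simp
    ring
  refine ⟨hpos, hder, fun z hz => inv_ne_zero (hne z hz), ?_, fun z hz => ?_, ?_, ?_⟩
  · intro z hz
    unfold j2
    exact ContinuousAt.continuousWithinAt (ContinuousAt.inv₀ (by fun_prop) (hne z hz))
  · have h0 := w2_aux hz
    unfold m2 j2
    rw [mul_pow, ff_w2 hz]
    field_simp
  · have q2 := QV_Q 2 (by norm_num)
    have q7 := QV_Q 7 (by norm_num)
    have q14 := QV_Q 14 (by norm_num)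
    have h := ((QV.qq'.pow 2).mul ((QV.const 8).mul (((QV_Q1.mul (q2.inv one_ne_zero)).mul
      ((q7.pow 7).inv (by norm_num))).mul (q14.pow 7)))).of_val (show _ = (0 : ℂ) by norm_num)
    have c1 := Q_contOn1
    have c2 := Q_contOn 2 (by norm_num)
    have c7 := Q_contOn 7 (by norm_num)
    have c14 := Q_contOn 14 (by norm_num)
    have e : ∀ z : ℂ, 0 < z.im → X1 (m2 z) ^ 2 = (qq z ^ 2 * (8 * (Q (qq z) * (Q (qq z ^ 2))⁻¹ *
        (Q (qq z ^ 7) ^ 7)⁻¹ * (Q (qq z ^ 14)) ^ 7))) ^ 2 := fun z hz => by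
      have := X1_w2 hz
      unfold m2
      rw [this]
      ring
    have e0 : ∀ z : ℂ, 0 < z.im → qq z ^ 2 * (8 * (Q (qq z) * (Q (qq z ^ 2))⁻¹ *
        (Q (qq z ^ 7) ^ 7)⁻¹ * (Q (qq z ^ 14)) ^ 7)) ≠ 0 := fun z hz => by
      obtain ⟨n1, n2, n7, n14⟩ := Q_nes hz
      exact mul_ne_zero (pow_ne_zero 2 (qq_ne z)) (mul_ne_zero (by norm_num) (by positivity))
    have c : ContinuousOn (fun z => qq z ^ 2 * (8 * (Q (qq z) * (Q (qq z ^ 2))⁻¹ *
        (Q (qq z ^ 7) ^ 7)⁻¹ * (Q (qq z ^ 14)) ^ 7))) {z : ℂ | 0 < z.im} :=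
      (qq_cont.continuousOn.pow 2).mul (continuousOn_const.mul (((c1.mul
        (c2.inv₀ fun z hz => (Q_nes hz).2.1)).mul
        ((c7.pow 7).inv₀ fun z hz => pow_ne_zero _ (Q_nes hz).2.2.1)).mul (c14.pow 7)))
    rcases QV_of_sq (comp_cont hpos hder X1_cont) c e e0 h with h7 | h7
    · exact h7
    · exact h7.of_val (by norm_num)
  · have q2 := QV_Q 2 (by norm_num)
    have q7 := QV_Q 7 (by norm_num)
    have q14 := QV_Q 14 (by norm_num)
    have h := (((((QV_Q1.pow 2).mul (q2.inv one_ne_zero)).mul ((q7.pow 2).inv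
      (by norm_num))).mul q14).pow 4).of_val (show _ = (1 : ℂ) by norm_num)
    refine h.of_eq (iI_pos.mono fun z hz => ?_)
    exact Y2_w2 hz

end Pool.Agent.W97.MT
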