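import Mathlib

/-!
Definitions for the Mazur-Tate refined conjecture at a split multiplicative prime.
-/

set_option autoImplicit false

open UpperHalfPlane MatrixGroups CongruenceSubgroup

namespace Pool.Agent.W97.MT

/-- The Hecke operator of weight `2` and level `N` at the prime `p` (`T_p` if `p ∤ N` and `U_p` if
`p ∣ N`) on functions on the upper half-plane:
`z ↦ [p ∤ N] p f(pz) + p^(-1) ∑_{b mod p} f((z+b)/p)`. -/
noncomputable def hecke (N p : ℕ) (f : ℍ → ℂ) (z : ℍ) : ℂ :=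
  (if p ∣ N then 0 else (p : ℂ) * f (ofComplex ((p : ℂ) * z))) +
    (∑ b ∈ Finset.range p, f (ofComplex (((z : ℂ) + b) / p))) / p

/-- `f ∈ S_2(Γ_0(N))` is a newform: `f = q + …`, `f` is an eigenfunction of all Hecke operators
`T_p` (`p ∤ N`) and `U_p` (`p ∣ N`), and its eigenvalues at the primes `p ∤ N` do not occur in
`S_2(Γ_0(M))` for a proper divisor `M` of `N`. -/
structure IsNewform (N : ℕ) (f : CuspForm (Gamma0 N : Subgroup (GL (Fin 2) ℝ)) 2) : Prop where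
  coeff_one : (qExpansion 1 f).coeff 1 = 1
  hecke : ∀ p : Nat.Primes, ∃ a : ℂ, ∀ z : ℍ, hecke N p f z = a * f z
  new : ∀ M : ℕ, M ∣ N → M ≠ N → ∀ g : CuspForm (Gamma0 M : Subgroup (GL (Fin 2) ℝ)) 2,
    (∀ p : Nat.Primes, ¬ (p : ℕ) ∣ N → ∀ z : ℍ,
      MT.hecke M p g z = (qExpansion 1 f).coeff p * g z) → ∀ z : ℍ, g z = 0

/-- The integral `2πi ∫_{i∞}^{z} f(w) dw` along the vertical half-line above `z`, where `z` lies in
the upper half-plane or is a rational number: it is `2π ∫_0^∞ f(z + it) dt`. -/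
noncomputable def prim (f : ℍ → ℂ) (z : ℂ) : ℂ :=
  2 * Real.pi * ∫ t in Set.Ioi (0 : ℝ), f (ofComplex (z + t * Complex.I))

/-- `ω` is a period of `2πi f(z) dz` on `X_0(N)`: the value `2πi ∫_z^{γz} f` of the integral from
`z` to `γ z` for some `γ ∈ Γ_0(N)` (it does not depend on `z`). -/
def IsPeriod (N : ℕ) (f : ℍ → ℂ) (ω : ℂ) : Prop :=
  ∃ γ ∈ Gamma0 N, ∀ z : ℍ, prim f ((γ • z : ℍ) : ℂ) - prim f (z : ℂ) = ω

/-- `W` is a global minimal Weierstrass equation: `Δ ≠ 0` and `|Δ|` is minimal among the integral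
Weierstrass equations of the same curve over `ℚ`. -/
def IsGloballyMinimal (W : WeierstrassCurve ℤ) : Prop :=
  W.Δ ≠ 0 ∧ ∀ (W' : WeierstrassCurve ℤ) (C : WeierstrassCurve.VariableChange ℚ),
    C • (W.map (Int.castRingHom ℚ)) = W'.map (Int.castRingHom ℚ) → |W.Δ| ≤ |W'.Δ|

/-- The number of affine points modulo `l`. -/
noncomputable def affCount (W : WeierstrassCurve ℤ) (l : ℕ) : ℕ :=
  Nat.card {P : ZMod l × ZMod l //
    (W.map (Int.castRingHom (ZMod l))).toAffine.Equation P.1 P.2}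

/-- `a_l(E) = l + 1 - #E(𝔽_l)` for the reduction modulo `l` of the Weierstrass equation (with the
point at infinity and the possible singular point). -/
noncomputable def ap (W : WeierstrassCurve ℤ) (l : ℕ) : ℤ := l - affCount W l

/-- `E_4(q) = 1 + 240 ∑ σ_3(n) q^n`. -/
noncomputable def E4 {p : ℕ} [Fact p.Prime] (q : ℚ_[p]) : ℚ_[p] :=
  1 + 240 * ∑' n : ℕ, (ArithmeticFunction.sigma 3 (n + 1) : ℚ_[p]) * q ^ (n + 1)

/-- `E_6(q) = 1 - 504 ∑ σ_5(n) q^n`. -/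
noncomputable def E6 {p : ℕ} [Fact p.Prime] (q : ℚ_[p]) : ℚ_[p] :=
  1 - 504 * ∑' n : ℕ, (ArithmeticFunction.sigma 5 (n + 1) : ℚ_[p]) * q ^ (n + 1)

/-- `q` is the Tate period of the curve: `0 < |q| < 1` and `j(q) = j(E)`, where
`j(q) = 1728 E_4³ / (E_4³ - E_6²) = q^(-1) + 744 + …` and `j(E) = c_4³ / Δ`. -/
def IsTatePeriod {p : ℕ} [Fact p.Prime] (W : WeierstrassCurve ℤ) (q : ℚ_[p]) : Prop :=
  q ≠ 0 ∧ ‖q‖ < 1 ∧
    (W.c₄ : ℚ_[p]) ^ 3 * (E4 q ^ 3 - E6 q ^ 2) = 1728 * (W.Δ : ℚ_[p]) * E4 q ^ 3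

/-- All the data attached to the triple `(p, E, N)` in the statement of the conjecture. -/
structure Datum (p N : ℕ) [Fact p.Prime] (W : WeierstrassCurve ℤ) where
  /-- the newform -/
  f : CuspForm (Gamma0 N : Subgroup (GL (Fin 2) ℝ)) 2
  /-- the period lattice of the Néron differential -/
  L : PeriodPair
  /-- the period `Ω⁺` -/
  Op : ℝ
  /-- the period `Ω⁻` -/
  Om : ℝ
  /-- the Manin constant -/
  c : ℤ
  /-- the denominator `D` -/
  D : ℕ
  /-- the modular symbol `r ↦ [r]` -/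
  s : ℚ → ℤ
  /-- the valuation of the Tate period -/
  n : ℕ
  /-- the unit part of the Tate period -/
  u : ℤ_[p]ˣ
  /-- `W` is a global minimal equation of `E` -/
  minimal : IsGloballyMinimal W
  /-- `E` has multiplicative reduction at `p` -/
  mult : (p : ℤ) ∣ W.Δ ∧ ¬ (p : ℤ) ∣ W.c₄
  /-- the reduction is split -/
  split : ap W p = 1
  /-- `f` is a newform of level `N` … -/
  newform : IsNewform N f
  /-- … attached to `E` -/
  coeff : ∀ l : Nat.Primes, (qExpansion 1 f).coeff l = ap W l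
  /-- `L` is the period lattice of the Néron differential `dx / (2y + a_1 x + a_3)` -/
  g2 : L.g₂ = (W.c₄ : ℂ) / 12
  g3 : L.g₃ = (W.c₆ : ℂ) / 216
  /-- `E` is optimal: the Néron lattice is `c` times the lattice of periods of `2πi f(z) dz` -/
  c_ne : c ≠ 0
  optimal : ∀ w : ℂ, w ∈ L.lattice ↔ ∃ ω : ℂ, IsPeriod N f ω ∧ w = c * ω
  /-- the periods `Ω^±` -/
  Op_pos : 0 < Op
  Om_pos : 0 < Om
  type : (∀ w : ℂ, w ∈ L.lattice ↔ ∃ a b : ℤ, w = a * Op + b * Om * Complex.I) ∨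
    (∀ w : ℂ, w ∈ L.lattice ↔ ∃ a b : ℤ, 2 ∣ a - b ∧ w = a * Op + b * Om * Complex.I)
  /-- `D` is the least positive integer such that all `D [r]^±` are integers -/
  least : IsLeast {D : ℕ | 0 < D ∧ ∀ r : ℚ, ∃ a b : ℤ,
    (D : ℂ) * prim f ((-r : ℚ) : ℂ) = a * Op + b * Om * Complex.I} D
  /-- `[r] = D [r]⁺` -/
  symb : ∀ r : ℚ, (D : ℝ) * (prim f ((-r : ℚ) : ℂ)).re = s r * Op
  /-- the Tate period is `u p^n` -/
  n_pos : 0 < n
  tate : IsTatePeriod W (((u : ℤ_[p]) : ℚ_[p]) * (p : ℚ_[p]) ^ n)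

/-- The relation `∏_{1 ≤ a ≤ p-1} a^(ord_p(q_E) [a/p]) ≡ q̃_E^([0/p]) (mod p)`. -/
def Relation {p N : ℕ} [Fact p.Prime] {W : WeierstrassCurve ℤ} (X : Datum p N W) : Prop :=
  ∏ a ∈ Finset.Icc 1 (p - 1), (a : ZMod p) ^ ((X.n : ℤ) * X.s ((a : ℚ) / p)) =
    (PadicInt.toZMod (X.u : ℤ_[p])) ^ (X.s (0 / p))

/-- **Q1 (Mazur-Tate).** -/
def MazurTateConjecture : Prop :=
  ∀ (p N : ℕ) [Fact p.Prime] (W : WeierstrassCurve ℤ) (X : Datum p N W), Relation X

/-- The curve `y² + xy + y = x³ + 4x - 6` (the modular curve `X_0(14)`). -/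
def E14 : WeierstrassCurve ℤ := ⟨1, 0, 1, 4, -6⟩

end Pool.Agent.W97.MT
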