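import Pool.Agent.W97.MT.Form
import Pool.Agent.W97.TW.Lfun
import Pool.Agent.W97.TW.Hecke
import Pool.Agent.W97.TW.Twist

/-!
`dim S_2(Γ_0(14)) = 1`.
-/

set_option autoImplicit false

open UpperHalfPlane MatrixGroups CongruenceSubgroup Filter Topology Asymptotics
open scoped ModularForm Pointwise

namespace Pool.Agent.W97.MT

open Pool.Agent.W97.TW

lemma dslope_analytic {c : ℂ → ℂ} (hc : AnalyticAt ℂ c 0) (h0 : c 0 = 0) :
    ∃ k : ℂ → ℂ, AnalyticAt ℂ k 0 ∧ ∀ q : ℂ, c q = q * k q := by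
  obtain ⟨p, hp⟩ := hc
  refine ⟨dslope c 0, ⟨_, hp.has_fpower_series_dslope_fslope⟩, fun q => ?_⟩
  by_cases hq : q = 0
  · rw [hq, h0, zero_mul]
  · rw [dslope_of_ne _ hq, slope_def_field, h0, sub_zero, sub_zero]
    field_simp

lemma qParam_one (z : ℂ) : Function.Periodic.qParam 1 z = qq z := by
  unfold Function.Periodic.qParam qq
  simp

/-- the expansion of a cusp form for a group containing the translation by one -/
lemma cusp_expansion {Γ : Subgroup (GL (Fin 2) ℝ)} (H : CuspForm Γ 2) (h1 : (1 : ℝ) ∈ Γ.strictPeriods) :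
    ∃ k : ℂ → ℂ, AnalyticAt ℂ k 0 ∧ ∀ z : ℂ, 0 < z.im → H (ofComplex z) = qq z * k (qq z) := by
  have hc := ModularFormClass.analyticAt_cuspFunction_zero (Γ := Γ) (k := 2) H one_pos h1
  have h0 := CuspFormClass.cuspFunction_apply_zero (Γ := Γ) (k := 2) H one_pos h1
  obtain ⟨k, hk, h2⟩ := dslope_analytic hc h0
  refine ⟨k, hk, fun z hz => ?_⟩
  have h3 := SlashInvariantFormClass.eq_cuspFunction (Γ := Γ) (k := 2) H (ofComplex z) h1 one_ne_zero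
  rw [← h3, ofComplex_apply_of_im_pos hz]
  change cuspFunction 1 H (Function.Periodic.qParam 1 z) = _
  rw [qParam_one]
  exact h2 _

lemma strict_one {a b c d : ℤ} (h : 0 < a * d - b * c) {a' b' c' d' : ℤ}
    (h' : a' * d' - b' * c' = 1) (hc : ((14 : ℕ) : ℤ) ∣ c') (e1 : a' * a + b' * c = a)
    (e2 : a' * b + b' * d = a + b) (e3 : c' * a + d' * c = c) (e4 : c' * b + d' * d = c + d) :
    (1 : ℝ) ∈ (ConjAct.toConjAct (al a b c d h)⁻¹ •
      (Gamma0 14 : Subgroup (GL (Fin 2) ℝ))).strictPeriods := by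
  rw [Subgroup.mem_strictPeriods_iff, map_inv, Subgroup.mem_inv_pointwise_smul_iff,
    ConjAct.toConjAct_smul]
  refine ⟨mkSL a' b' c' d' h', (mkSL_mem a' b' c' d' h' 14).2 hc, ?_⟩
  rw [eq_mul_inv_iff_mul_eq]
  apply Units.ext
  rw [Units.val_mul, Units.val_mul, al_GL]
  have e0 : ((Matrix.SpecialLinearGroup.mapGL ℝ (mkSL a' b' c' d' h') : GL (Fin 2) ℝ) :
    Matrix (Fin 2) (Fin 2) ℝ) = !![(a' : ℝ), (b' : ℝ); (c' : ℝ), (d' : ℝ)] := mkSL_GL a' b' c' d' h'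
  rw [e0]
  have e5 : (a' : ℝ) * a + b' * c = a := by exact_mod_cast e1
  have e6 : (a' : ℝ) * b + b' * d = a + b := by exact_mod_cast e2
  have e7 : (c' : ℝ) * a + d' * c = c := by exact_mod_cast e3
  have e8 : (c' : ℝ) * b + d' * d = c + d := by exact_mod_cast e4
  ext i j
  fin_cases i <;> fin_cases j <;> simp [Matrix.mul_apply, Fin.sum_univ_two, e5, e6, e7, e8]

variable (g : CuspForm (Gamma0 14 : Subgroup (GL (Fin 2) ℝ)) 2)

lemma exp_m14 : ∃ k : ℂ → ℂ, AnalyticAt ℂ k 0 ∧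
    ∀ z : ℂ, 0 < z.im → g (ofComplex (m14 z)) * j14 z = qq z * k (qq z) := by
  have h : (0 : ℤ) < 0 * 0 - (-1) * 14 := by norm_num
  obtain ⟨k, hk, h1⟩ := cusp_expansion (CuspForm.translate g (al 0 (-1) 14 0 h))
    (strict_one h (a' := 1) (b' := 0) (c' := -14) (d' := 1) (by norm_num) (by norm_num)
      (by norm_num) (by norm_num) (by norm_num) (by norm_num))
  refine ⟨k, hk, fun z hz => ?_⟩
  rw [← h1 z hz]
  change _ = ((g : ℍ → ℂ) ∣[(2 : ℤ)] al 0 (-1) 14 0 h) (ofComplex z)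
  rw [slash_al, ofComplex_apply_of_im_pos hz]
  have h0 := z_ne hz
  have e : ((0 : ℤ) * (z : ℂ) + ((-1 : ℤ) : ℂ)) / (((14 : ℤ) : ℂ) * z + ((0 : ℤ) : ℂ)) = m14 z := by
    unfold m14; push_cast; congr 1 <;> ring
  change _ = g (ofComplex (((0 : ℤ) * (z : ℂ) + ((-1 : ℤ) : ℂ)) / (((14 : ℤ) : ℂ) * z + ((0 : ℤ) : ℂ)))) *
    _ * (((14 : ℤ) : ℂ) * z + ((0 : ℤ) : ℂ)) ^ (-2 : ℤ)
  rw [e, zpow_neg]
  unfold j14
  norm_num
  norm_cast
  rw [mul_assoc]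
  congr 1
  field_simp

lemma exp_m7 : ∃ k : ℂ → ℂ, AnalyticAt ℂ k 0 ∧
    ∀ z : ℂ, 0 < z.im → g (ofComplex (m7 z)) * j7 z = qq z * k (qq z) := by
  have h : (0 : ℤ) < 7 * (-7) - (-4) * 14 := by norm_num
  obtain ⟨k, hk, h1⟩ := cusp_expansion (CuspForm.translate g (al 7 (-4) 14 (-7) h))
    (strict_one h (a' := -13) (b' := 7) (c' := -28) (d' := 15) (by norm_num) (by norm_num)
      (by norm_num) (by norm_num) (by norm_num) (by norm_num))
  refine ⟨k, hk, fun z hz => ?_⟩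
  rw [← h1 z hz]
  change _ = ((g : ℍ → ℂ) ∣[(2 : ℤ)] al 7 (-4) 14 (-7) h) (ofComplex z)
  rw [slash_al, ofComplex_apply_of_im_pos hz]
  have h0 := w7_aux hz
  have e : ((7 : ℤ) * (z : ℂ) + ((-4 : ℤ) : ℂ)) / (((14 : ℤ) : ℂ) * z + ((-7 : ℤ) : ℂ)) = m7 z := by
    unfold m7; push_cast; rfl
  have e' : (((14 : ℤ) : ℂ) * z + ((-7 : ℤ) : ℂ)) = 7 * (2 * z - 1) := by push_cast; ring
  change _ = g (ofComplex (((7 : ℤ) * (z : ℂ) + ((-4 : ℤ) : ℂ)) / (((14 : ℤ) : ℂ) * z + ((-7 : ℤ) : ℂ)))) *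
    _ * (((14 : ℤ) : ℂ) * z + ((-7 : ℤ) : ℂ)) ^ (-2 : ℤ)
  rw [e, e', zpow_neg, show ((7 * (2 * z - 1)) ^ (2 : ℤ) : ℂ) = (7 * (2 * z - 1)) ^ 2 from zpow_ofNat _ 2]
  unfold j7
  norm_num
  rw [mul_assoc]
  congr 1
  field_simp

lemma exp_m2 : ∃ k : ℂ → ℂ, AnalyticAt ℂ k 0 ∧
    ∀ z : ℂ, 0 < z.im → g (ofComplex (m2 z)) * j2 z = qq z * k (qq z) := by
  have h : (0 : ℤ) < 2 * (-6) - (-1) * 14 := by norm_num
  obtain ⟨k, hk, h1⟩ := cusp_expansion (CuspForm.translate g (al 2 (-1) 14 (-6) h))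
    (strict_one h (a' := -13) (b' := 2) (c' := -98) (d' := 15) (by norm_num) (by norm_num)
      (by norm_num) (by norm_num) (by norm_num) (by norm_num))
  refine ⟨k, hk, fun z hz => ?_⟩
  rw [← h1 z hz]
  change _ = ((g : ℍ → ℂ) ∣[(2 : ℤ)] al 2 (-1) 14 (-6) h) (ofComplex z)
  rw [slash_al, ofComplex_apply_of_im_pos hz]
  have h0 := w2_aux hz
  have e : ((2 : ℤ) * (z : ℂ) + ((-1 : ℤ) : ℂ)) / (((14 : ℤ) : ℂ) * z + ((-6 : ℤ) : ℂ)) = m2 z := by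
    unfold m2; push_cast; rfl
  have e' : (((14 : ℤ) : ℂ) * z + ((-6 : ℤ) : ℂ)) = 2 * (7 * z - 3) := by push_cast; ring
  change _ = g (ofComplex (((2 : ℤ) * (z : ℂ) + ((-1 : ℤ) : ℂ)) / (((14 : ℤ) : ℂ) * z + ((-6 : ℤ) : ℂ)))) *
    _ * (((14 : ℤ) : ℂ) * z + ((-6 : ℤ) : ℂ)) ^ (-2 : ℤ)
  rw [e, e', zpow_neg, show ((2 * (7 * z - 3)) ^ (2 : ℤ) : ℂ) = (2 * (7 * z - 3)) ^ 2 from zpow_ofNat _ 2]
  unfold j2
  norm_num
  rw [mul_assoc]
  congr 1
  field_simp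

lemma g_diff {z : ℂ} (hz : 0 < z.im) : DifferentiableAt ℂ (fun w => g (ofComplex w)) z := by
  have h1 := UpperHalfPlane.mdifferentiable_iff.1 g.holo'
  exact (h1 z hz).differentiableAt (H_open.mem_nhds hz)

/-- the space of cusp forms is one-dimensional -/
theorem dim_one (hcp : S_CP) (hq : S_QEXP) : ∃ c : ℂ, ∀ z : ℍ, g z = c * e14 z := by
  have hone : (1 : ℝ) ∈ (Gamma0 14 : Subgroup (GL (Fin 2) ℝ)).strictPeriods := one_mem0
  obtain ⟨k1, hk1, h1⟩ := cusp_expansion g hone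
  obtain ⟨k14, hk14, h14⟩ := exp_m14 g
  obtain ⟨k7, hk7, h7⟩ := exp_m7 g
  obtain ⟨k2, hk2, h2⟩ := exp_m2 g
  have hph : ∀ z : ℂ, 0 < z.im → phi (qq z) ≠ 0 := fun z hz h0 => by
    have hf := ff_ne hz
    rw [ff_q, h0, mul_zero] at hf
    exact hf rfl
  have hcusp : ∀ {m j : ℂ → ℂ} (_ : IsMap m j) {k : ℂ → ℂ} (_ : AnalyticAt ℂ k 0)
      (_ : ∀ z : ℂ, 0 < z.im → g (ofComplex (m z)) * j z = qq z * k (qq z)),
      ∃ v, QV (fun z => g (ofComplex (m z)) / ff (m z)) v := by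
    intro m j h k hk he
    obtain ⟨ε, hε, hff⟩ := h.sign
    have hε0 : ε ≠ 0 := by rcases hε with rfl | rfl <;> norm_num
    refine ⟨_, ((QV.comp hk).mul ((QV_phi.inv one_ne_zero).mul (QV.const ε⁻¹))).of_eq
      (iI_pos.mono fun z hz => ?_)⟩
    have e1 := he z hz
    have e2 := hff z hz
    have e3 := h.jne z hz
    have e4 := ff_ne (h.pos z hz)
    have e5 := hph z hz
    have e6 := qq_ne z
    rw [ff_q z] at e2
    rw [div_eq_iff e4]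
    apply mul_right_cancel₀ e3
    rw [e1, mul_assoc, e2]
    field_simp
  obtain ⟨v14, q14⟩ := hcusp (isCusp14 hcp hq).map hk14 h14
  obtain ⟨v7, q7⟩ := hcusp (isCusp7 hcp hq).map hk7 h7
  obtain ⟨v2, q2⟩ := hcusp cusp2.map hk2 h2
  obtain ⟨v1, q1⟩ := hcusp idMap hk1 (fun z hz => by rw [mul_one]; exact h1 z hz)
  obtain ⟨c, hc⟩ := hcp (fun z => g (ofComplex z) / ff z)
    (fun z hz => ((g_diff g hz).div (ff_diff hz) (ff_ne hz)).differentiableWithinAt)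
    (fun a b c d h z hz => by
      have e1 := f_gamma g (a := a) (b := b) (c := 14 * c) (d := d) (by linarith)
        (by exact dvd_mul_right _ _) hz
      have e2 := ff_gamma hcp hq h z hz
      have h0 := (G_gamma h hz).2.1
      have hf := ff_ne hz
      push_cast at e1
      rw [e1, e2, show ((14 * c * z + d : ℂ) ^ (2 : ℤ)) = (14 * c * z + d) ^ 2 from zpow_ofNat _ 2]
      rw [mul_div_mul_left _ _ (pow_ne_zero 2 h0)]) q1.bounded' q14.bounded q7.bounded q2.bounded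
  refine ⟨c, fun z => ?_⟩
  have e1 := hc z z.im_pos
  rw [ofComplex_apply] at e1
  unfold e14
  rw [← e1, div_mul_cancel₀ _ (ff_ne z.im_pos)]

end Pool.Agent.W97.MT
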