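import Mathlib

/-!
Functions on the unit disc given by power series.
-/

set_option autoImplicit false

open PowerSeries Filter Topology

namespace Pool.Agent.W97.MT

/-- `h` is the sum of the power series `φ` on the unit disc -/
def RepC (h : ℂ → ℂ) (φ : ℂ⟦X⟧) : Prop :=
  ∀ q : ℂ, ‖q‖ < 1 → HasSum (fun n : ℕ => coeff n φ * q ^ n) (h q)

namespace RepC

variable {h k : ℂ → ℂ} {φ ψ : ℂ⟦X⟧}

lemma congr (hf : RepC h φ) (hk : ∀ q : ℂ, ‖q‖ < 1 → k q = h q) : RepC k φ := by
  intro q hq
  rw [hk q hq]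
  exact hf q hq

lemma add (hf : RepC h φ) (hg : RepC k ψ) : RepC (fun q => h q + k q) (φ + ψ) := by
  intro q hq
  refine ((hf q hq).add (hg q hq)).congr_fun ?_ |> fun x => x
  intro n
  simp only [map_add]
  ring

lemma sub (hf : RepC h φ) (hg : RepC k ψ) : RepC (fun q => h q - k q) (φ - ψ) := by
  intro q hq
  refine ((hf q hq).sub (hg q hq)).congr_fun ?_ |> fun x => x
  intro n
  simp only [map_sub]
  ring

lemma mul (hf : RepC h φ) (hg : RepC k ψ) : RepC (fun q => h q * k q) (φ * ψ) := by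
  intro q hq
  have h1 := (hf q hq).summable.norm
  have h2 := (hg q hq).summable.norm
  have h3 := summable_norm_sum_mul_antidiagonal_of_summable_norm h1 h2
  have h4 := tsum_mul_tsum_eq_tsum_sum_antidiagonal_of_summable_norm h1 h2
  rw [(hf q hq).tsum_eq, (hg q hq).tsum_eq] at h4
  change HasSum _ (h q * k q)
  rw [h4]
  have h5 := h3.of_norm.hasSum
  refine h5.congr_fun ?_ |> fun x => x
  intro n
  rw [coeff_mul, Finset.sum_mul]
  refine Finset.sum_congr rfl fun x hx => ?_
  have hx' : x.1 + x.2 = n := by simpa using hx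
  rw [← hx', pow_add]
  ring

lemma C (a : ℂ) : RepC (fun _ => a) (PowerSeries.C a) := by
  intro q _
  have := hasSum_single (f := fun n : ℕ => (coeff n (PowerSeries.C a)) * q ^ n) 0 (by
    intro n hn
    rw [coeff_C, if_neg hn]
    simp)
  simpa using this

lemma one : RepC (fun _ => 1) 1 := by
  have := C 1
  simpa using this

lemma X : RepC (fun q => q) PowerSeries.X := by
  intro q _
  have := hasSum_single (f := fun n : ℕ => (coeff n (PowerSeries.X : ℂ⟦X⟧)) * q ^ n) 1 (by
    intro n hn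
    rw [coeff_X, if_neg hn]
    simp)
  simpa using this

lemma pow (hf : RepC h φ) (n : ℕ) : RepC (fun q => h q ^ n) (φ ^ n) := by
  induction n with
  | zero => simpa using one
  | succ n ih => simpa [pow_succ] using ih.mul hf

lemma hasFPowerSeriesOnBall (hf : RepC h φ) : HasFPowerSeriesOnBall h
    (FormalMultilinearSeries.ofScalars ℂ (fun n => coeff n φ)) 0 1 := by
  refine ⟨?_, one_pos, ?_⟩
  · refine ENNReal.le_of_forall_nnreal_lt fun r hr => ?_
    have hr1 : (r : ℝ) < 1 := by exact_mod_cast hr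
    refine FormalMultilinearSeries.le_radius_of_summable_norm _ ?_
    have h1 := (hf (r : ℂ) (by simpa using hr1)).summable.norm
    refine h1.congr fun n => ?_
    rw [FormalMultilinearSeries.ofScalars_norm]
    simp
  · intro y hy
    have hy0 : ‖y‖ₑ < 1 := by simpa using hy
    have hy2 : ((‖y‖₊ : NNReal) : ENNReal) < 1 := hy0
    have hy1 : ‖y‖ < 1 := by exact_mod_cast hy2
    have h1 := hf y hy1
    simpa [FormalMultilinearSeries.ofScalars_apply_eq, mul_comm] using h1

lemma differentiableOn (hf : RepC h φ) : DifferentiableOn ℂ h (Metric.ball 0 1) := by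
  have := hf.hasFPowerSeriesOnBall.differentiableOn
  simpa [← Metric.eball_ofReal] using this

lemma analyticAt_zero (hf : RepC h φ) : AnalyticAt ℂ h 0 := hf.hasFPowerSeriesOnBall.analyticAt

lemma unique (hf : RepC h φ) (hg : RepC h ψ) : φ = ψ := by
  have h1 := hf.hasFPowerSeriesOnBall.hasFPowerSeriesAt.eq_formalMultilinearSeries
    hg.hasFPowerSeriesOnBall.hasFPowerSeriesAt
  ext n
  have h2 := congrArg (fun p => p.coeff n) h1
  simpa [FormalMultilinearSeries.coeff_ofScalars] using h2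

lemma taylor (hd : DifferentiableOn ℂ h (Metric.ball 0 1)) :
    RepC h (PowerSeries.mk fun n => (n.factorial : ℂ)⁻¹ * iteratedDeriv n h 0) := by
  intro q hq
  have h1 := Complex.hasSum_taylorSeries_on_ball hd (z := q) (by simpa using hq)
  refine h1.congr_fun ?_ |> fun x => x
  intro n
  simp
  ring

lemma exists_of_differentiableOn (hd : DifferentiableOn ℂ h (Metric.ball 0 1)) :
    ∃ φ : ℂ⟦X⟧, RepC h φ := ⟨_, taylor hd⟩

lemma coeff_eq (hf : RepC h φ) (n : ℕ) : coeff n φ = (n.factorial : ℂ)⁻¹ * iteratedDeriv n h 0 := by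
  rw [hf.unique (taylor hf.differentiableOn), coeff_mk]

lemma inv (hf : RepC h φ) (hφ : φ * ψ = 1) (hne : ∀ q : ℂ, ‖q‖ < 1 → h q ≠ 0) :
    RepC (fun q => (h q)⁻¹) ψ := by
  have hd : DifferentiableOn ℂ (fun q => (h q)⁻¹) (Metric.ball 0 1) :=
    hf.differentiableOn.inv fun q hq => hne q (by simpa using hq)
  obtain ⟨χ, hχ⟩ := exists_of_differentiableOn hd
  have h1 : RepC (fun _ => 1) (φ * χ) := (hf.mul hχ).congr fun q hq => by
    rw [mul_inv_cancel₀ (hne q hq)]
  have h2 : φ * χ = 1 := h1.unique one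
  have h3 : χ = ψ := by
    calc χ = χ * (φ * ψ) := by rw [hφ, mul_one]
      _ = (φ * χ) * ψ := by ring
      _ = ψ := by rw [h2, one_mul]
  rwa [← h3]

/-- composition with `q ↦ q^d` -/
lemma expand (hf : RepC h φ) (d : ℕ) (hd : d ≠ 0) :
    RepC (fun q => h (q ^ d)) (PowerSeries.expand d hd φ) := by
  intro q hq
  have hq' : ‖q ^ d‖ < 1 := by
    rw [norm_pow]; exact pow_lt_one₀ (norm_nonneg _) hq hd
  have h1 := hf (q ^ d) hq'
  have hinj : Function.Injective (fun n : ℕ => d * n) := fun a b hab => by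
    simpa [hd] using hab
  refine (hinj.hasSum_iff ?_).1 (h1.congr_fun ?_ |> fun x => x)
  · intro n hn
    rw [coeff_expand_of_not_dvd]
    · simp
    · intro hdn
      obtain ⟨m, rfl⟩ := hdn
      exact hn ⟨m, rfl⟩
  · intro n
    simp only [Function.comp_apply]
    rw [coeff_expand_mul, pow_mul]

/-- the operator `q d/dq` -/
lemma theta (hf : RepC h φ) :
    RepC (fun q => q * deriv h q) (PowerSeries.X * PowerSeries.derivative ℂ φ) := by
  have hd : DifferentiableOn ℂ (deriv h) (Metric.ball 0 1) :=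
    hf.differentiableOn.deriv Metric.isOpen_ball
  have hχ := taylor hd
  have h1 : (PowerSeries.mk fun n => (n.factorial : ℂ)⁻¹ * iteratedDeriv n (deriv h) 0) =
      PowerSeries.derivative ℂ φ := by
    ext n
    rw [coeff_mk, coeff_derivative, hf.coeff_eq, ← iteratedDeriv_succ', Nat.factorial_succ]
    have : (n.factorial : ℂ) ≠ 0 := by exact_mod_cast n.factorial_ne_zero
    have h2 : ((n : ℂ) + 1) ≠ 0 := by exact_mod_cast n.succ_ne_zero
    push_cast
    field_simp
  rw [← h1]
  exact X.mul hχ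

end RepC

/-- `h` is the sum of the integral power series `φ` on the unit disc -/
def Rep (h : ℂ → ℂ) (φ : ℤ⟦X⟧) : Prop := RepC h (PowerSeries.map (Int.castRingHom ℂ) φ)

lemma map_injective : Function.Injective (PowerSeries.map (Int.castRingHom ℂ)) :=
  PowerSeries.map_injective _ Int.cast_injective

namespace Rep

variable {h k : ℂ → ℂ} {φ ψ : ℤ⟦X⟧}

lemma congr (hf : Rep h φ) (hk : ∀ q : ℂ, ‖q‖ < 1 → k q = h q) : Rep k φ := RepC.congr hf hk

lemma add (hf : Rep h φ) (hg : Rep k ψ) : Rep (fun q => h q + k q) (φ + ψ) := by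
  unfold Rep; rw [map_add]; exact RepC.add hf hg

lemma sub (hf : Rep h φ) (hg : Rep k ψ) : Rep (fun q => h q - k q) (φ - ψ) := by
  unfold Rep; rw [map_sub]; exact RepC.sub hf hg

lemma mul (hf : Rep h φ) (hg : Rep k ψ) : Rep (fun q => h q * k q) (φ * ψ) := by
  unfold Rep; rw [map_mul]; exact RepC.mul hf hg

lemma pow (hf : Rep h φ) (n : ℕ) : Rep (fun q => h q ^ n) (φ ^ n) := by
  unfold Rep; rw [map_pow]; exact RepC.pow hf n

lemma C (a : ℤ) : Rep (fun _ => (a : ℂ)) (PowerSeries.C a) := by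
  unfold Rep; rw [PowerSeries.map_C]; exact RepC.C _

lemma one : Rep (fun _ => 1) 1 := by
  unfold Rep; rw [map_one]; exact RepC.one

lemma X : Rep (fun q => q) PowerSeries.X := by
  unfold Rep; rw [PowerSeries.map_X]; exact RepC.X

lemma expand (hf : Rep h φ) (d : ℕ) (hd : d ≠ 0) :
    Rep (fun q => h (q ^ d)) (PowerSeries.expand d hd φ) := by
  unfold Rep; rw [PowerSeries.map_expand]; exact RepC.expand hf d hd

lemma theta (hf : Rep h φ) :
    Rep (fun q => q * deriv h q) (PowerSeries.X * PowerSeries.derivative ℤ φ) := by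
  have h1 := RepC.theta hf
  have h2 : PowerSeries.map (Int.castRingHom ℂ) (PowerSeries.X * PowerSeries.derivative ℤ φ) =
      PowerSeries.X * PowerSeries.derivative ℂ (PowerSeries.map (Int.castRingHom ℂ) φ) := by
    rw [map_mul, PowerSeries.map_X]
    congr 1
    ext n
    simp [coeff_derivative]
  unfold Rep
  rwa [h2]

lemma inv (hf : Rep h φ) (hφ : φ * ψ = 1) (hne : ∀ q : ℂ, ‖q‖ < 1 → h q ≠ 0) :
    Rep (fun q => (h q)⁻¹) ψ := by
  refine RepC.inv hf ?_ hne
  rw [← map_mul, hφ, map_one]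

lemma unique (hf : Rep h φ) (hg : Rep h ψ) : φ = ψ := map_injective (RepC.unique hf hg)

end Rep

end Pool.Agent.W97.MT
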