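import Pool.Agent.W97.TW.NewEleven
import Pool.Agent.W97.MT.Rep

/-!
Eta products on `X_0(14)`.
-/

set_option autoImplicit false

open UpperHalfPlane MatrixGroups CongruenceSubgroup Filter Topology
open scoped ModularForm Pointwise

namespace Pool.Agent.W97.MT

open Pool.Agent.W97.TW

/-- `e^{2πiz}` -/
noncomputable def qq (z : ℂ) : ℂ := Complex.exp (2 * Real.pi * Complex.I * z)

/-- `e^{2πiz/24}` -/
noncomputable def tt (z : ℂ) : ℂ := Complex.exp (2 * Real.pi * Complex.I * z / 24)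

lemma tt_ne (z : ℂ) : tt z ≠ 0 := Complex.exp_ne_zero _

lemma qq_ne (z : ℂ) : qq z ≠ 0 := Complex.exp_ne_zero _

lemma tt_pow (z : ℂ) : tt z ^ 24 = qq z := by
  unfold tt qq
  rw [← Complex.exp_nat_mul]
  congr 1
  push_cast
  ring

lemma norm_qq (z : ℂ) : ‖qq z‖ = Real.exp (-2 * Real.pi * z.im) := by
  unfold qq
  rw [Complex.norm_exp]
  congr 1
  simp

lemma norm_qq_lt {z : ℂ} (hz : 0 < z.im) : ‖qq z‖ < 1 := by
  rw [norm_qq, Real.exp_lt_one_iff]
  have := Real.pi_pos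
  nlinarith [mul_pos this hz]

lemma eta_mul (d : ℕ) (z : ℂ) : ModularForm.eta (d * z) = tt z ^ d * Q (qq z ^ d) := by
  rw [eta_eq]
  congr 1
  · unfold Function.Periodic.qParam tt
    rw [← Complex.exp_nat_mul]
    congr 1
    push_cast
    ring
  · unfold qq
    rw [← Complex.exp_nat_mul]
    congr 2
    ring

lemma eta_one (z : ℂ) : ModularForm.eta z = tt z * Q (qq z) := by
  have := eta_mul 1 z
  simpa using this

lemma G_mul (d : ℕ) (z : ℂ) : G (d * z) = tt z ^ (2 * d) * Q (qq z ^ d) ^ 2 := by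
  unfold G
  rw [eta_mul]
  ring

lemma Q_ne {q : ℂ} (hq : ‖q‖ < 1) : Q q ≠ 0 := by
  by_cases h0 : q = 0
  · rw [h0, Q_zero]; exact one_ne_zero
  · have him := Function.Periodic.im_invQParam_pos_of_norm_lt_one one_pos hq h0
    have h1 : Function.Periodic.qParam 1 (Function.Periodic.invQParam 1 q) = q :=
      Function.Periodic.qParam_right_inv one_ne_zero h0
    have h2 := ModularForm.eta_ne_zero him
    rw [eta_one] at h2
    have h3 : qq (Function.Periodic.invQParam 1 q) = q := by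
      refine Eq.trans ?_ h1
      unfold qq Function.Periodic.qParam
      simp
    intro h4
    rw [h3, h4, mul_zero] at h2
    exact h2 rfl

lemma Q_ne_pow {q : ℂ} (hq : ‖q‖ < 1) {d : ℕ} (hd : d ≠ 0) : Q (q ^ d) ≠ 0 := by
  apply Q_ne
  rw [norm_pow]
  exact pow_lt_one₀ (norm_nonneg _) hq hd

/-- `η(z)η(2z)η(7z)η(14z)` -/
noncomputable def ff (z : ℂ) : ℂ :=
  ModularForm.eta z * ModularForm.eta (2 * z) * ModularForm.eta (7 * z) * ModularForm.eta (14 * z)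

/-- the function `x - 1` -/
noncomputable def X1 (z : ℂ) : ℂ :=
  (ModularForm.eta z)⁻¹ * ModularForm.eta (2 * z) * ModularForm.eta (7 * z) ^ 7 *
    (ModularForm.eta (14 * z) ^ 7)⁻¹

/-- the function `-(y - 2x + 2)` -/
noncomputable def Y2 (z : ℂ) : ℂ :=
  (ModularForm.eta z ^ 4)⁻¹ * ModularForm.eta (2 * z) ^ 8 * ModularForm.eta (7 * z) ^ 4 *
    (ModularForm.eta (14 * z) ^ 8)⁻¹

/-- the expansion of `X1` -/
noncomputable def xi (q : ℂ) : ℂ := (Q q)⁻¹ * Q (q ^ 2) * Q (q ^ 7) ^ 7 * (Q (q ^ 14) ^ 7)⁻¹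

/-- the expansion of `Y2` -/
noncomputable def ups (q : ℂ) : ℂ := (Q q ^ 4)⁻¹ * Q (q ^ 2) ^ 8 * Q (q ^ 7) ^ 4 * (Q (q ^ 14) ^ 8)⁻¹

/-- the expansion of `ff` -/
noncomputable def phi (q : ℂ) : ℂ := Q q * Q (q ^ 2) * Q (q ^ 7) * Q (q ^ 14)

lemma ff_q (z : ℂ) : ff z = qq z * phi (qq z) := by
  have h1 := eta_one z
  have h2 := eta_mul 2 z
  have h7 := eta_mul 7 z
  have h14 := eta_mul 14 z
  push_cast at h2 h7 h14
  unfold ff phi
  rw [h1, h2, h7, h14, ← tt_pow]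
  ring

lemma X1_q {z : ℂ} (hz : 0 < z.im) : X1 z = xi (qq z) / qq z ^ 2 := by
  have h1 := eta_one z
  have h2 := eta_mul 2 z
  have h7 := eta_mul 7 z
  have h14 := eta_mul 14 z
  push_cast at h2 h7 h14
  have hq := norm_qq_lt hz
  have e1 := Q_ne hq
  have e14 := Q_ne_pow hq (d := 14) (by norm_num)
  have ht := tt_ne z
  unfold X1 xi
  rw [h1, h2, h7, h14]
  have hq2 : qq z ^ 2 = tt z ^ 48 := by rw [← tt_pow]; ring
  rw [hq2]
  field_simp

lemma Y2_q {z : ℂ} (hz : 0 < z.im) : Y2 z = ups (qq z) / qq z ^ 3 := by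
  have h1 := eta_one z
  have h2 := eta_mul 2 z
  have h7 := eta_mul 7 z
  have h14 := eta_mul 14 z
  push_cast at h2 h7 h14
  have hq := norm_qq_lt hz
  have e1 := Q_ne hq
  have e14 := Q_ne_pow hq (d := 14) (by norm_num)
  have ht := tt_ne z
  unfold Y2 ups
  rw [h1, h2, h7, h14]
  have hq2 : qq z ^ 3 = tt z ^ 72 := by rw [← tt_pow]; ring
  rw [hq2]
  field_simp

/-- general product of powers of `η²` -/
noncomputable def Gs (a b c d : ℤ) (z : ℂ) : ℂ :=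
  G z ^ a * G (2 * z) ^ b * G (7 * z) ^ c * G (14 * z) ^ d

lemma ff_sq (z : ℂ) : ff z ^ 2 = Gs 1 1 1 1 z := by
  unfold ff Gs G
  simp only [zpow_one]
  ring

lemma X1_sq (z : ℂ) : X1 z ^ 2 = Gs (-1) 1 7 (-7) z := by
  unfold X1 Gs G
  rw [zpow_neg_one, zpow_one, zpow_neg]
  norm_cast
  simp only [mul_pow, inv_pow]
  ring

lemma Y2_eq (z : ℂ) : Y2 z = Gs (-2) 4 2 (-4) z := by
  unfold Y2 Gs G
  rw [zpow_neg, zpow_neg]
  norm_cast
  simp only [← pow_mul]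

lemma G_ne {w : ℂ} (hw : 0 < w.im) : G w ≠ 0 := pow_ne_zero _ (ModularForm.eta_ne_zero hw)

lemma im_mul {w : ℂ} (hw : 0 < w.im) (n : ℕ) (hn : 0 < n) : 0 < ((n : ℂ) * w).im :=
  im_mul_nat hw hn

lemma kap14_3 : ∀ a b c d : ZMod 3, a * d - b * (14 * c) = 1 →
    (kap a b (14 * c) d + kap a (2 * b) (7 * c) d + kap a (7 * b) (2 * c) d +
      kap a (14 * b) c d = 0) ∧
    (-1 * kap a b (14 * c) d + 1 * kap a (2 * b) (7 * c) d + 7 * kap a (7 * b) (2 * c) d +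
      -7 * kap a (14 * b) c d = 0) ∧
    (-2 * kap a b (14 * c) d + 4 * kap a (2 * b) (7 * c) d + 2 * kap a (7 * b) (2 * c) d +
      -4 * kap a (14 * b) c d = 0) := by
  decide

lemma kap14_4 : ∀ a b c d : ZMod 4, a * d - b * (14 * c) = 1 →
    (kap a b (14 * c) d + kap a (2 * b) (7 * c) d + kap a (7 * b) (2 * c) d +
      kap a (14 * b) c d = 0) ∧
    (-1 * kap a b (14 * c) d + 1 * kap a (2 * b) (7 * c) d + 7 * kap a (7 * b) (2 * c) d +
      -7 * kap a (14 * b) c d = 0) ∧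
    (-2 * kap a b (14 * c) d + 4 * kap a (2 * b) (7 * c) d + 2 * kap a (7 * b) (2 * c) d +
      -4 * kap a (14 * b) c d = 0) := by
  decide

/-- the basic transformations under `Γ_0(14)` -/
lemma G_gamma {a b c d : ℤ} (h : a * d - b * (14 * c) = 1) {z : ℂ} (hz : 0 < z.im) :
    0 < ((a * z + b) / (14 * c * z + d) : ℂ).im ∧ (14 * c * z + d : ℂ) ≠ 0 ∧
    G ((a * z + b) / (14 * c * z + d)) = ze ^ (kap a b (14 * c) d) * (14 * c * z + d) * G z ∧
    G (2 * ((a * z + b) / (14 * c * z + d))) =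
      ze ^ (kap a (2 * b) (7 * c) d) * (14 * c * z + d) * G (2 * z) ∧
    G (7 * ((a * z + b) / (14 * c * z + d))) =
      ze ^ (kap a (7 * b) (2 * c) d) * (14 * c * z + d) * G (7 * z) ∧
    G (14 * ((a * z + b) / (14 * c * z + d))) =
      ze ^ (kap a (14 * b) c d) * (14 * c * z + d) * G (14 * z) := by
  have h0 := im_moebius h hz
  have e1 := G_moebius h hz
  have e2 := G_moebius (a := a) (b := 2 * b) (c := 7 * c) (d := d) (by linarith)
    (im_mul hz 2 (by norm_num))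
  have e7 := G_moebius (a := a) (b := 7 * b) (c := 2 * c) (d := d) (by linarith)
    (im_mul hz 7 (by norm_num))
  have e14 := G_moebius (a := a) (b := 14 * b) (c := c) (d := d) (by linarith)
    (im_mul hz 14 (by norm_num))
  push_cast at h0 e1 e2 e7 e14
  refine ⟨h0.1, h0.2, e1, ?_, ?_, ?_⟩
  · have e : (2 : ℂ) * ((a * z + b) / (14 * c * z + d)) =
        (a * (2 * z) + 2 * b) / (7 * c * (2 * z) + d) := by
      rw [← mul_div_assoc]; congr 1 <;> ring
    rw [e, e2]; ring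
  · have e : (7 : ℂ) * ((a * z + b) / (14 * c * z + d)) =
        (a * (7 * z) + 7 * b) / (2 * c * (7 * z) + d) := by
      rw [← mul_div_assoc]; congr 1 <;> ring
    rw [e, e7]; ring
  · have e : (14 : ℂ) * ((a * z + b) / (14 * c * z + d)) =
        (a * (14 * z) + 14 * b) / (c * (14 * z) + d) := by
      rw [← mul_div_assoc]; congr 1 <;> ring
    rw [e, e14]; ring

lemma Gs_gamma (s1 s2 s7 s14 : ℤ) {a b c d : ℤ} (h : a * d - b * (14 * c) = 1) {z : ℂ}
    (hz : 0 < z.im) :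
    Gs s1 s2 s7 s14 ((a * z + b) / (14 * c * z + d)) =
      ze ^ (s1 * kap a b (14 * c) d + s2 * kap a (2 * b) (7 * c) d +
        s7 * kap a (7 * b) (2 * c) d + s14 * kap a (14 * b) c d) *
      (14 * c * z + d) ^ (s1 + s2 + s7 + s14) * Gs s1 s2 s7 s14 z := by
  obtain ⟨-, hj, e1, e2, e7, e14⟩ := G_gamma h hz
  unfold Gs
  rw [e1, e2, e7, e14]
  simp only [mul_zpow, zpow_add₀ hj, zpow_add₀ ze_ne, zpow_mul]
  have : ∀ (x : ℂ) (m n : ℤ), (x ^ m) ^ n = (x ^ n) ^ m := fun x m n => by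
    rw [← zpow_mul, ← zpow_mul, mul_comm]
  rw [this ze _ s1, this ze _ s2, this ze _ s7, this ze _ s14]
  ring

lemma phases {a b c d : ℤ} (h : a * d - b * (14 * c) = 1) :
    (12 : ℤ) ∣ (kap a b (14 * c) d + kap a (2 * b) (7 * c) d + kap a (7 * b) (2 * c) d +
      kap a (14 * b) c d) ∧
    (12 : ℤ) ∣ (-1 * kap a b (14 * c) d + 1 * kap a (2 * b) (7 * c) d +
      7 * kap a (7 * b) (2 * c) d + -7 * kap a (14 * b) c d) ∧
    (12 : ℤ) ∣ (-2 * kap a b (14 * c) d + 4 * kap a (2 * b) (7 * c) d +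
      2 * kap a (7 * b) (2 * c) d + -4 * kap a (14 * b) c d) := by
  have h3 := kap14_3 a b c d (by exact_mod_cast congrArg (Int.cast : ℤ → ZMod 3) h)
  have h4 := kap14_4 a b c d (by exact_mod_cast congrArg (Int.cast : ℤ → ZMod 4) h)
  refine ⟨dvd12 ?_ ?_, dvd12 ?_ ?_, dvd12 ?_ ?_⟩ <;> push_cast [cast_kap]
  · exact h3.1
  · exact h4.1
  · exact h3.2.1
  · exact h4.2.1
  · exact h3.2.2
  · exact h4.2.2

lemma ze_dvd {m : ℤ} (h : (12 : ℤ) ∣ m) : ze ^ m = 1 := by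
  rw [ze_congr (n := 0) (by simpa using h), zpow_zero]

/-- invariance of `X1²` -/
lemma X1_sq_gamma {a b c d : ℤ} (h : a * d - b * (14 * c) = 1) {z : ℂ} (hz : 0 < z.im) :
    X1 ((a * z + b) / (14 * c * z + d)) ^ 2 = X1 z ^ 2 := by
  rw [X1_sq, X1_sq, Gs_gamma _ _ _ _ h hz]
  rw [ze_dvd (phases h).2.1]
  norm_num

/-- invariance of `Y2` -/
lemma Y2_gamma {a b c d : ℤ} (h : a * d - b * (14 * c) = 1) {z : ℂ} (hz : 0 < z.im) :
    Y2 ((a * z + b) / (14 * c * z + d)) = Y2 z := by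
  rw [Y2_eq, Y2_eq, Gs_gamma _ _ _ _ h hz]
  rw [ze_dvd (phases h).2.2]
  norm_num

/-- weight four invariance of `ff²` -/
lemma ff_sq_gamma {a b c d : ℤ} (h : a * d - b * (14 * c) = 1) {z : ℂ} (hz : 0 < z.im) :
    ff ((a * z + b) / (14 * c * z + d)) ^ 2 = (14 * c * z + d) ^ 4 * ff z ^ 2 := by
  rw [ff_sq, ff_sq, Gs_gamma _ _ _ _ h hz]
  have := (phases h).1
  rw [show (1 : ℤ) * kap a b (14 * c) d + 1 * kap a (2 * b) (7 * c) d +
    1 * kap a (7 * b) (2 * c) d + 1 * kap a (14 * b) c d = kap a b (14 * c) d +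
    kap a (2 * b) (7 * c) d + kap a (7 * b) (2 * c) d + kap a (14 * b) c d by ring, ze_dvd this]
  norm_num

end Pool.Agent.W97.MT
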