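import Pool.Agent.W97.MT.Prim

/-!
The integrals from rational points.
-/

set_option autoImplicit false

open Filter Topology MeasureTheory Set

namespace Pool.Agent.W97.MT

open Pool.Agent.W97.TW

/-- the rational number `r` is `γ m (i∞)` -/
def Hit (r : ℂ) (m : ℂ → ℂ) : Prop := ∃ a b c d : ℤ, a * d - b * (14 * c) = 1 ∧
  ∃ K x : ℝ, 0 < K ∧ ∀ s : ℝ, 0 < s →
    (a * m (x + s * Complex.I) + b) / (14 * c * m (x + s * Complex.I) + d) =
      r + ((K * s)⁻¹ : ℝ) * Complex.I

section hit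

variable {m j : ℂ → ℂ} (h : IsMap m j) {r : ℂ}
include h

/-- size of the form near a rational number -/
lemma hit_ff (hcp : S_CP) (hq : S_QEXP) {a b c d : ℤ} (hdet : a * d - b * (14 * c) = 1)
    {K x : ℝ} (hK : 0 < K) (he : ∀ s : ℝ, 0 < s →
    (a * m (x + s * Complex.I) + b) / (14 * c * m (x + s * Complex.I) + d) =
      r + ((K * s)⁻¹ : ℝ) * Complex.I) {s : ℝ} (hs : 0 < s) :
    ‖ff (r + ((K * s)⁻¹ : ℝ) * Complex.I)‖ = K * s ^ 2 * ‖ff (x + s * Complex.I)‖ := by
  obtain ⟨ε, hε, hff⟩ := h.sign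
  have him : 0 < ((x : ℂ) + s * Complex.I).im := by simpa using hs
  set w : ℂ := (x : ℂ) + s * Complex.I with hw
  have hm := h.pos w him
  have h0 := (G_gamma hdet hm).2.1
  -- the derivative along the path
  have h1 : HasDerivAt (fun t : ℝ => (x : ℂ) + (t : ℂ) * Complex.I) Complex.I s := by
    have := ((Complex.ofRealCLM.hasDerivAt (x := s)).mul_const Complex.I).const_add (x : ℂ)
    simpa using this
  have h2 : HasDerivAt m (j w) (x + (s : ℂ) * Complex.I) := h.der w him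
  have h3 : HasDerivAt (fun z : ℂ => (a * z + b) / (14 * c * z + d))
      (((14 * c * m w + d) ^ 2)⁻¹) (m (x + (s : ℂ) * Complex.I)) := hasDerivAt_gamma hdet hm
  have h4 := h3.comp s (h2.comp s h1)
  have h5 : HasDerivAt (fun t : ℝ => r + ((K * t)⁻¹ : ℝ) * Complex.I)
      (((-(K * s ^ 2)⁻¹ : ℝ) : ℂ) * Complex.I) s := by
    have e1 : HasDerivAt (fun t : ℝ => (K * t)⁻¹) (-(K * s ^ 2)⁻¹) s := by
      have := ((hasDerivAt_id s).const_mul K).inv (by positivity)
      refine this.congr_deriv ?_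
      simp only [id]
      field_simp
    exact ((HasDerivAt.ofReal_comp e1).mul_const Complex.I).const_add r
  have h6 : (fun t : ℝ => r + ((K * t)⁻¹ : ℝ) * Complex.I) =ᶠ[𝓝 s]
      ((fun z : ℂ => (a * z + b) / (14 * c * z + d)) ∘ (m ∘ fun t : ℝ => (x : ℂ) + (t : ℂ) * Complex.I)) := by
    filter_upwards [isOpen_Ioi.mem_nhds (show s ∈ Ioi (0 : ℝ) from hs)] with t ht
    exact (he t ht).symm
  have h7 := (h4.congr_of_eventuallyEq h6).unique h5
  have h8 : ((14 * c * m w + d) ^ 2)⁻¹ * j w = ((-(K * s ^ 2)⁻¹ : ℝ) : ℂ) := by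
    have := mul_right_cancel₀ (b := Complex.I) Complex.I_ne_zero (a := ((14 * c * m w + d) ^ 2)⁻¹ * j w)
      (c := ((-(K * s ^ 2)⁻¹ : ℝ) : ℂ)) (by rw [← h7]; ring)
    exact this
  have h9 := ff_gamma hcp hq hdet (m w) hm
  have h10 := hff w him
  rw [← he s hs]
  change ‖ff ((a * m w + b) / (14 * c * m w + d))‖ = _
  rw [h9]
  have hj := h.jne w him
  have h11 : (14 * c * m w + d) ^ 2 = -((K * s ^ 2 : ℝ) : ℂ) * j w := by
    have hKs : ((K * s ^ 2 : ℝ) : ℂ) ≠ 0 := by exact_mod_cast (by positivity : K * s ^ 2 ≠ 0)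
    rw [Complex.ofReal_neg, Complex.ofReal_inv] at h8
    field_simp at h8
    linear_combination h8
  have h12 : (14 * c * m w + d) ^ 2 * ff (m w) = -((K * s ^ 2 : ℝ) : ℂ) * (ε * ff w) := by
    rw [h11, ← h10]; ring
  rw [h12, norm_mul, norm_neg, norm_mul, Complex.norm_real, Real.norm_of_nonneg (by positivity)]
  rcases hε with rfl | rfl <;> simp

lemma hit_prim (hcp : S_CP) (hq : S_QEXP) {C : ℂ} (hC : Tendsto (fun z => F (m z)) iI (𝓝 C))
    (hr : r.im = 0) (hit : Hit r m) :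
    IntegrableOn (fun t : ℝ => ff (r + t * Complex.I)) (Ioi 0) ∧
    ∃ a b c d : ℤ, a * d - b * (14 * c) = 1 ∧ ∃ p : ℂ,
      (∀ z : ℂ, 0 < z.im → F ((a * z + b) / (14 * c * z + d)) = F z + p) ∧
      2 * Real.pi * ∫ t in Ioi (0 : ℝ), ff (r + t * Complex.I) = C + p := by
  obtain ⟨a, b, c, d, hdet, K, x, hK, he⟩ := hit
  have hinv : ∀ t : ℝ, 0 < t → (K * (K * t)⁻¹)⁻¹ = t := fun t ht => by field_simp
  have hint : IntegrableOn (fun t : ℝ => ff (r + t * Complex.I)) (Ioi 0) := by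
    rw [← Ioc_union_Ioi_eq_Ioi (zero_le_one : (0 : ℝ) ≤ 1)]
    refine IntegrableOn.union ?_ (ff_line_int r (by rw [hr]; norm_num))
    obtain ⟨D, hD0, hD⟩ := ff_bound (inv_pos.2 hK)
    have hcont : ContinuousOn (fun t : ℝ => ff (r + t * Complex.I)) (Ioc 0 1) := by
      have h1 := ff_cont.comp (f := fun t : ℝ => r + t * Complex.I) (s := Ioi 0) (by fun_prop)
          (fun u hu => by
            change 0 < (r + u * Complex.I).im
            rw [line_im, hr]
            simpa using hu)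
      exact h1.mono Ioc_subset_Ioi_self
    refine IntegrableOn.of_bound (C := K * D) (by simp)
      (hcont.aestronglyMeasurable measurableSet_Ioc) ?_
    refine (ae_restrict_mem measurableSet_Ioc).mono fun t ht => ?_
    have ht0 : 0 < t := ht.1
    set s : ℝ := (K * t)⁻¹ with hs
    have hs0 : 0 < s := by positivity
    have h1 := hit_ff h hcp hq hdet hK he hs0
    rw [hs, hinv t ht0] at h1
    rw [h1, ← hs]
    have h2 : K⁻¹ ≤ s := by
      rw [hs]
      exact inv_anti₀ (by positivity) (by nlinarith [ht.2])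
    have h3 := hD (x + s * Complex.I) (by simpa using h2)
    have h4 : ((x : ℂ) + s * Complex.I).im = s := by simp
    rw [h4] at h3
    have h5 : s ^ 2 * Real.exp (-(2 * Real.pi) * s) ≤ 1 := by
      have e1 := Real.add_one_le_exp s
      have e2 : s ^ 2 ≤ Real.exp (2 * Real.pi * s) := by
        have e3 : Real.exp (2 * s) ≤ Real.exp (2 * Real.pi * s) := by
          apply Real.exp_le_exp.2
          have := Real.pi_gt_three
          nlinarith
        refine le_trans ?_ e3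
        rw [two_mul, Real.exp_add]
        nlinarith [Real.exp_pos s]
      have e4 : Real.exp (-(2 * Real.pi) * s) = (Real.exp (2 * Real.pi * s))⁻¹ := by
        rw [← Real.exp_neg]; ring_nf
      rw [e4, ← div_eq_mul_inv]
      exact (div_le_one (Real.exp_pos _)).2 e2
    calc K * s ^ 2 * ‖ff (x + s * Complex.I)‖
        ≤ K * s ^ 2 * (D * Real.exp (-(2 * Real.pi) * s)) := by gcongr
      _ = K * D * (s ^ 2 * Real.exp (-(2 * Real.pi) * s)) := by ring
      _ ≤ K * D * 1 := by gcongr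
      _ = K * D := mul_one _
  refine ⟨hint, a, b, c, d, hdet, ?_⟩
  obtain ⟨p, hp⟩ := F_gamma hcp hq hdet
  refine ⟨p, hp, integral_line r hr.ge hint ?_⟩
  have ht : Tendsto (fun t : ℝ => (x : ℂ) + ((K * t)⁻¹ : ℝ) * Complex.I) (𝓝[>] 0) iI := by
    unfold iI
    rw [tendsto_comap_iff]
    have e : Complex.im ∘ (fun t : ℝ => (x : ℂ) + ((K * t)⁻¹ : ℝ) * Complex.I) =
        fun t : ℝ => K⁻¹ * t⁻¹ := by
      ext t; simp [mul_comm]
    rw [e]
    exact tendsto_inv_nhdsGT_zero.const_mul_atTop (inv_pos.2 hK)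
  have h1 := (hC.comp ht).add_const p
  refine h1.congr' ?_
  filter_upwards [self_mem_nhdsWithin] with t ht
  have ht0 : (0 : ℝ) < t := ht
  have hs0 : 0 < (K * t)⁻¹ := by positivity
  have h2 := he _ hs0
  rw [hinv t ht0] at h2
  rw [← h2, hp _ (h.pos _ (by simpa using hs0))]
  rfl

end hit

end Pool.Agent.W97.MT
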