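import Pool.Agent.W97.MT.Defs

/-!
Statements of the independent parts.
-/

set_option autoImplicit false

open UpperHalfPlane MatrixGroups CongruenceSubgroup Filter Topology

namespace Pool.Agent.W97.MT

instance fact_seven : Fact (Nat.Prime 7) := ⟨by norm_num⟩

/-- INJ -/
def S_INJ : Prop := ∀ (L : PeriodPair) (a b : ℂ), a ∉ L.lattice → b ∉ L.lattice →
  L.weierstrassP a = L.weierstrassP b → a - b ∈ L.lattice ∨ a + b ∈ L.lattice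

/-- TORS -/
def S_TORS : Prop := ∀ L : PeriodPair, L.g₂ = -215 / 12 → L.g₃ = 5291 / 216 →
  ∀ u : ℂ, u ∉ L.lattice → L.weierstrassP u = 109 / 12 →
    2 * u ∉ L.lattice ∧ 3 * u ∉ L.lattice ∧ L.weierstrassP (2 * u) = 25 / 12 ∧
    L.weierstrassP (3 * u) = 13 / 12 ∧ 6 * u ∈ L.lattice

/-- LAT -/
def S_LAT : Prop := ∃ (L : PeriodPair) (Op Om : ℝ), 0 < Op ∧ 0 < Om ∧
  L.g₂ = -215 / 12 ∧ L.g₃ = 5291 / 216 ∧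
  ∀ w : ℂ, w ∈ L.lattice ↔ ∃ a b : ℤ, 2 ∣ a - b ∧ w = a * Op + b * Om * Complex.I

/-- SUB -/
def S_SUB : Prop := ∀ (L : PeriodPair) (Λ : AddSubgroup ℂ), (∀ x ∈ Λ, x ∈ L.lattice) →
  (∃ L' : PeriodPair, ∀ x : ℂ, x ∈ L'.lattice ↔ x ∈ Λ) ∨
  (∃ v : ℂ, v ≠ 0 ∧ ∀ x ∈ Λ, ∃ n : ℤ, x = n * v)

/-- TATE -/
def S_TATE : Prop := ∃ u : ℤ_[7]ˣ, PadicInt.toZMod (u : ℤ_[7]) = -1 ∧
  IsTatePeriod E14 (((u : ℤ_[7]) : ℚ_[7]) * (7 : ℚ_[7]) ^ 3)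

/-- CP: the constant principle on `X_0(14)` -/
def S_CP : Prop := ∀ g : ℂ → ℂ, DifferentiableOn ℂ g {z : ℂ | 0 < z.im} →
  (∀ a b c d : ℤ, a * d - b * (14 * c) = 1 → ∀ z : ℂ, 0 < z.im →
    g ((a * z + b) / (14 * c * z + d)) = g z) →
  (∃ B T : ℝ, ∀ z : ℂ, T < z.im → ‖g z‖ ≤ B) →
  (∃ B T : ℝ, 0 ≤ T ∧ ∀ z : ℂ, T < z.im → ‖g (-1 / (14 * z))‖ ≤ B) →
  (∃ B T : ℝ, 0 ≤ T ∧ ∀ z : ℂ, T < z.im → ‖g ((7 * z - 4) / (14 * z - 7))‖ ≤ B) →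
  (∃ B T : ℝ, 0 ≤ T ∧ ∀ z : ℂ, T < z.im → ‖g ((2 * z - 1) / (14 * z - 6))‖ ≤ B) →
  ∃ c : ℂ, ∀ z : ℂ, 0 < z.im → g z = c

/-- SUP -/
def S_SUP : Prop := ∀ (N : ℕ) [NeZero N] (f : CuspForm (Gamma0 N : Subgroup (GL (Fin 2) ℝ)) 2),
  (∃ z : ℍ, f z ≠ 0) → ∀ p : ℕ, p.Prime → ∀ a : ℂ, (∀ z : ℍ, hecke N p f z = a * f z) →
    ‖a‖ ≤ p + 1

/-- ODE -/
def S_ODE : Prop := ∀ (L : PeriodPair) (Φ α : ℂ → ℂ), AnalyticAt ℂ Φ 0 → AnalyticAt ℂ α 0 →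
  Φ 0 = 0 → deriv Φ 0 = 1 → α 0 = 1 →
  (∀ᶠ q in 𝓝[≠] (0 : ℂ), (q * deriv (fun t => α t / t ^ 2) q) ^ 2 =
    (q * deriv Φ q) ^ 2 * (4 * (α q / q ^ 2) ^ 3 - L.g₂ * (α q / q ^ 2) - L.g₃)) →
  ∀ᶠ q in 𝓝[≠] (0 : ℂ), Φ q ∉ L.lattice ∧ L.weierstrassP (Φ q) = α q / q ^ 2

/-- HASSE: the coefficient of `q^p` modulo `p` -/
def S_HASSE : Prop := ∀ (p : ℕ) [Fact p.Prime], p ≠ 2 → ∀ φ ξ σ : PowerSeries (ZMod p),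
  PowerSeries.constantCoeff ξ = 1 → PowerSeries.constantCoeff σ = -2 →
  PowerSeries.X * PowerSeries.derivative (ZMod p) ξ - 2 * ξ = φ * σ →
  σ ^ 2 = 4 * ξ ^ 3 + 13 * PowerSeries.X ^ 2 * ξ ^ 2 + 32 * PowerSeries.X ^ 4 * ξ →
  PowerSeries.coeff (p - 1) φ = (ap E14 p : ZMod p)

/-- SIX: six divides the number of points -/
def S_SIX : Prop := ∀ (p : ℕ), p.Prime → p ≠ 2 → p ≠ 3 → p ≠ 7 → 6 ∣ affCount E14 p + 1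

/-- OLD -/
def S_OLD : Prop := ∀ e : ℍ → ℂ,
  (∀ g : CuspForm (Gamma0 14 : Subgroup (GL (Fin 2) ℝ)) 2, ∃ c : ℂ, ∀ z : ℍ, g z = c * e z) →
  Tendsto (fun z : ℍ => e z / Complex.exp (2 * Real.pi * Complex.I * z)) atImInfty (𝓝 1) →
  ∀ M : ℕ, M ∣ 14 → M ≠ 14 → ∀ g : CuspForm (Gamma0 M : Subgroup (GL (Fin 2) ℝ)) 2,
    ∀ z : ℍ, g z = 0

/-- MIN -/
def S_MIN : Prop := IsGloballyMinimal E14 ∧ E14.c₄ = -215 ∧ E14.c₆ = 5291 ∧ E14.Δ = -21952 ∧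
  affCount E14 2 = 3 ∧ affCount E14 3 = 5 ∧ affCount E14 7 = 6 ∧
  ∀ p : ℕ, p.Prime → affCount E14 p ≤ 2 * p

/-- HINT: Hecke operators and the integrals -/
def S_HINT : Prop := ∀ (N p : ℕ) (f : ℍ → ℂ) (a : ℂ), p.Prime →
  (∀ r : ℚ, MeasureTheory.IntegrableOn (fun t : ℝ => f (ofComplex ((r : ℂ) + t * Complex.I)))
    (Set.Ioi 0)) →
  (∀ z : ℍ, hecke N p f z = a * f z) → ∀ r : ℚ,
    a * prim f r = (if p ∣ N then 0 else prim f ((p * r : ℚ) : ℂ)) +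
      ∑ b ∈ Finset.range p, prim f (((r + b) / p : ℚ) : ℂ)

/-- ARITH: the final computation -/
def S_ARITH : Prop := ∀ (I : ℚ → ℂ) (Op Om : ℝ) (L : Set ℂ), 0 < Op → 0 < Om →
  (∀ w : ℂ, w ∈ L ↔ ∃ a b : ℤ, 2 ∣ a - b ∧ w = a * Op + b * Om * Complex.I) →
  (I 0).im = 0 → 6 * I 0 ∈ L → 2 * I 0 ∉ L → 3 * I 0 ∉ L →
  (∀ r : ℚ, ∃ j : ℤ, I r - j * I 0 ∈ L) →
  (∀ r : ℚ, I (-r) = (starRingEnd ℂ) (I r)) → (∀ r : ℚ, I (r + 1) = I r) →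
  I 0 = ∑ b ∈ Finset.range 7, I ((b : ℚ) / 7) →
  ∃ s : ℚ → ℤ, IsLeast {D : ℕ | 0 < D ∧ ∀ r : ℚ, ∃ a b : ℤ,
      (D : ℂ) * I (-r) = a * Op + b * Om * Complex.I} 3 ∧
    (∀ r : ℚ, (3 : ℝ) * (I (-r)).re = s r * Op) ∧
    ∏ a ∈ Finset.Icc (1 : ℕ) 6, (a : ZMod 7) ^ ((3 : ℤ) * s ((a : ℚ) / 7)) ≠ (-1 : ZMod 7) ^ s 0

/-- QEXP: Euler's product as an integral power series -/
def S_QEXP : Prop := ∃ φ : PowerSeries ℤ, PowerSeries.constantCoeff φ = 1 ∧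
  (∀ q : ℂ, ‖q‖ < 1 → HasSum (fun n : ℕ => ((PowerSeries.coeff n φ : ℤ) : ℂ) * q ^ n)
    (∏' i : ℕ, (1 - q ^ (i + 1)))) ∧
  PowerSeries.X ^ 14 ∣ φ - (1 - PowerSeries.X - PowerSeries.X ^ 2 + PowerSeries.X ^ 5 +
    PowerSeries.X ^ 7 - PowerSeries.X ^ 12)

end Pool.Agent.W97.MT
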