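import Pool.Agent.W97.MT.Rat

/-!
The elliptic curve: `℘(F) = x + 1/12`.
-/

set_option autoImplicit false

open Filter Topology Set

namespace Pool.Agent.W97.MT

open Pool.Agent.W97.TW

lemma exists_qq {q : ℂ} (hq : ‖q‖ < 1) (h0 : q ≠ 0) : ∃ z : ℂ, 0 < z.im ∧ qq z = q := by
  refine ⟨Function.Periodic.invQParam 1 q,
    Function.Periodic.im_invQParam_pos_of_norm_lt_one one_pos hq h0, ?_⟩
  refine Eq.trans ?_ (Function.Periodic.qParam_right_inv one_ne_zero h0 :
    Function.Periodic.qParam 1 (Function.Periodic.invQParam 1 q) = q)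
  unfold qq Function.Periodic.qParam
  simp

lemma xi_diffAt {q : ℂ} (hq : ‖q‖ < 1) : DifferentiableAt ℂ xi q := by
  have hb : q ∈ Metric.ball (0 : ℂ) 1 := by simpa using hq
  have hm := Metric.isOpen_ball.mem_nhds hb
  have e1 := Q_diff.differentiableAt hm
  have e2 := (Qd_diff 2 (by norm_num)).differentiableAt hm
  have e7 := (Qd_diff 7 (by norm_num)).differentiableAt hm
  have e14 := (Qd_diff 14 (by norm_num)).differentiableAt hm
  exact (((e1.inv (Q_ne hq)).mul e2).mul (e7.pow 7)).mul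
    ((e14.pow 7).inv (pow_ne_zero _ (Q_ne_pow hq (by norm_num))))

lemma xi_analytic : AnalyticAt ℂ xi 0 := by
  have : DifferentiableOn ℂ xi (Metric.ball 0 1) := fun q hq =>
    (xi_diffAt (by simpa using hq)).differentiableWithinAt
  exact this.analyticAt (Metric.ball_mem_nhds _ one_pos)

/-- the differential equation in `q` -/
lemma q_deriv (hcp : S_CP) (hq : S_QEXP) {z : ℂ} (hz : 0 < z.im) :
    qq z * deriv (fun t => xi t / t ^ 2) (qq z) = qq z * phi (qq z) * RR z := by
  have hq0 := qq_ne z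
  have hd : DifferentiableAt ℂ (fun t => xi t / t ^ 2) (qq z) :=
    (xi_diffAt (norm_qq_lt hz)).div (by fun_prop) (pow_ne_zero 2 hq0)
  have h1 := hd.hasDerivAt.comp z (hasDerivAt_qq z)
  have h2 : X1 =ᶠ[𝓝 z] (fun t => xi t / t ^ 2) ∘ qq := by
    filter_upwards [H_open.mem_nhds hz] with w hw
    exact X1_q hw
  have h3 := (h1.congr_of_eventuallyEq h2).deriv
  rw [deriv_X1 hcp hq hz, ff_q] at h3
  have h4 : (2 * Real.pi * Complex.I) * (qq z * phi (qq z) * RR z) =
    (2 * Real.pi * Complex.I) * (qq z * deriv (fun t => xi t / t ^ 2) (qq z)) := by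
    linear_combination h3
  exact (mul_left_cancel₀ tpi_ne h4).symm

section lattice

variable (hcp : S_CP) (hq : S_QEXP) (hode : S_ODE) (L : PeriodPair) (g2 : L.g₂ = -215 / 12)
  (g3 : L.g₃ = 5291 / 216)
include hcp hq hode g2 g3

lemma near_inf : ∀ᶠ z in iI, F z ∉ L.lattice ∧ L.weierstrassP (F z) = X1 z + 13 / 12 := by
  have hα : AnalyticAt ℂ (fun q => xi q + 13 / 12 * q ^ 2) 0 := by
    have := xi_analytic
    fun_prop
  have h := hode L Phi (fun q => xi q + 13 / 12 * q ^ 2) Phi_analytic hα Phi_zero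
    (by rw [(Phi_deriv (by simp : ‖(0 : ℂ)‖ < 1)).deriv, phi_zero]) (by simp [xi_zero]) ?_
  · rw [eventually_nhdsWithin_iff] at h
    have h1 := tendsto_qq.eventually h
    filter_upwards [h1, iI_pos] with z hz hp
    obtain ⟨h2, h3⟩ := hz (qq_ne z)
    refine ⟨h2, h3.trans ?_⟩
    rw [X1_q hp]
    have := qq_ne z
    field_simp
  · rw [eventually_nhdsWithin_iff]
    filter_upwards [Metric.ball_mem_nhds (0 : ℂ) one_pos] with q hq1 hq0
    have hq1' : ‖q‖ < 1 := by simpa using hq1
    have hq0' : q ≠ 0 := hq0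
    obtain ⟨z, hz, rfl⟩ := exists_qq hq1' hq0'
    have e : (fun t => (xi t + 13 / 12 * t ^ 2) / t ^ 2) =ᶠ[𝓝 (qq z)]
        (fun t => xi t / t ^ 2 + 13 / 12) := by
      filter_upwards [isOpen_compl_singleton.mem_nhds hq0'] with t ht
      have ht' : t ≠ 0 := ht
      field_simp
    rw [e.deriv_eq, deriv_add_const, q_deriv hcp hq hz, (Phi_deriv hq1').deriv]
    have h1 := RR_sq hcp hq hz
    have h2 : (xi (qq z) + 13 / 12 * qq z ^ 2) / qq z ^ 2 = X1 z + 13 / 12 := by
      rw [X1_q hz]; field_simp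
    rw [h2, g2, g3]
    linear_combination (qq z * phi (qq z)) ^ 2 * h1

/-- regularised `℘` near a lattice point -/
noncomputable def wA (L : PeriodPair) (l u : ℂ) : ℂ :=
  (u - l) ^ 2 * L.weierstrassPExcept l u + 1 - (u - l) ^ 2 / l ^ 2

omit hcp hq hode g2 g3 in
lemma wA_same (l : ℂ) : wA L l l = 1 := by unfold wA; simp

omit hcp hq hode g2 g3 in
lemma wA_eq {l u : ℂ} (hl : l ∈ L.lattice) (hu : u ≠ l) :
    wA L l u = (u - l) ^ 2 * L.weierstrassP u := by
  have := L.ite_eq_one_sub_sq_mul_weierstrassP l hl u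
  rw [if_neg hu] at this
  exact this.symm

omit hcp hq hode g2 g3 in
lemma wA_analytic (l : ℂ) {u : ℂ} (hu : u ∈ ((L.lattice : Set ℂ) \ {l})ᶜ) :
    AnalyticAt ℂ (wA L l) u := by
  have h1 : AnalyticAt ℂ (L.weierstrassPExcept l) u := L.analyticOnNhd_weierstrassPExcept l u hu
  unfold wA
  have h2 : AnalyticAt ℂ (fun u : ℂ => (u - l) ^ 2 / l ^ 2) u := by
    simp only [div_eq_mul_inv]
    fun_prop
  fun_prop

omit hcp hq hode g2 g3 in
lemma F_cont : ContinuousOn F {z : ℂ | 0 < z.im} := fun _ hz =>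
  (F_diff hz).continuousAt.continuousWithinAt

omit hcp hq hode g2 g3 in
lemma F_analytic {z : ℂ} (hz : 0 < z.im) : AnalyticAt ℂ F z :=
  (show DifferentiableOn ℂ F {z : ℂ | 0 < z.im} from
    fun w hw => (F_diff hw).differentiableWithinAt).analyticAt (H_open.mem_nhds hz)

omit hcp hq hode g2 g3 in
lemma X1_analytic {z : ℂ} (hz : 0 < z.im) : AnalyticAt ℂ X1 z :=
  (show DifferentiableOn ℂ X1 {z : ℂ | 0 < z.im} from
    fun w hw => (X1_diff hw).differentiableWithinAt).analyticAt (H_open.mem_nhds hz)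

/-- the parametrisation -/
theorem wp_F : ∀ z : ℂ, 0 < z.im →
    F z ∉ L.lattice ∧ L.weierstrassP (F z) = X1 z + 13 / 12 := by
  set V : Set ℂ := {z : ℂ | 0 < z.im} ∩
    {z : ℂ | ∀ᶠ w in 𝓝 z, F w ∉ L.lattice ∧ L.weierstrassP (F w) = X1 w + 13 / 12} with hV
  have hVo : IsOpen V := H_open.inter isOpen_setOfPred_eventually_nhds
  have hne : ({z : ℂ | 0 < z.im} ∩ V).Nonempty := by
    obtain ⟨T, hT, h1⟩ := iI_eventually.1 (near_inf hcp hq hode L g2 g3)
    have him : 0 < (((T + 1 : ℝ) : ℂ) * Complex.I).im := by simp; linarith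
    refine ⟨((T + 1 : ℝ) : ℂ) * Complex.I, him, him, ?_⟩
    have : {w : ℂ | T < w.im} ∈ 𝓝 (((T + 1 : ℝ) : ℂ) * Complex.I) :=
      (isOpen_lt continuous_const Complex.continuous_im).mem_nhds (by simp)
    filter_upwards [this] with w hw
    exact h1 w hw
  have hcl : closure V ∩ {z : ℂ | 0 < z.im} ⊆ V := by
    rintro z0 ⟨hz0, him⟩
    have him' : 0 < z0.im := him
    refine ⟨him, ?_⟩
    by_cases hl : F z0 ∈ L.lattice
    · exfalso
      set O : Set ℂ := {z : ℂ | 0 < z.im} ∩ F ⁻¹' (((L.lattice : Set ℂ) \ {F z0})ᶜ) with hO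
      have hOo : IsOpen O := F_cont.isOpen_inter_preimage H_open L.isOpen_compl_lattice_sdiff
      have hz0O : z0 ∈ O := ⟨him, by simp⟩
      obtain ⟨ε, hε, hball⟩ := Metric.isOpen_iff.1 hOo z0 hz0O
      obtain ⟨v, hvB, hvV⟩ := mem_closure_iff.1 hz0 _ Metric.isOpen_ball (Metric.mem_ball_self hε)
      have hA : AnalyticOnNhd ℂ (fun w => wA L (F z0) (F w)) (Metric.ball z0 ε) := fun w hw =>
        (wA_analytic L (F z0) (hball hw).2).fun_comp (F_analytic (hball hw).1)
      have hB : AnalyticOnNhd ℂ (fun w => (F w - F z0) ^ 2 * (X1 w + 13 / 12)) (Metric.ball z0 ε) :=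
        fun w hw => by
          have h1 := F_analytic (hball hw).1
          have h2 := X1_analytic (hball hw).1
          fun_prop
      have heq : (fun w => wA L (F z0) (F w)) =ᶠ[𝓝 v] fun w => (F w - F z0) ^ 2 * (X1 w + 13 / 12) := by
        filter_upwards [hvV.2] with w hw
        rw [wA_eq L hl (fun h => hw.1 (by rw [h]; exact hl)), hw.2]
      have h3 := hA.eqOn_of_preconnected_of_eventuallyEq hB
        (convex_ball z0 ε).isPreconnected hvB heq (Metric.mem_ball_self hε)
      simp only [wA_same, sub_self] at h3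
      norm_num at h3
    · set O : Set ℂ := {z : ℂ | 0 < z.im} ∩ F ⁻¹' ((L.lattice : Set ℂ)ᶜ) with hO
      have hOo : IsOpen O := F_cont.isOpen_inter_preimage H_open L.isClosed_lattice.isOpen_compl
      have hz0O : z0 ∈ O := ⟨him, hl⟩
      obtain ⟨ε, hε, hball⟩ := Metric.isOpen_iff.1 hOo z0 hz0O
      obtain ⟨v, hvB, hvV⟩ := mem_closure_iff.1 hz0 _ Metric.isOpen_ball (Metric.mem_ball_self hε)
      have hA : AnalyticOnNhd ℂ (fun w => L.weierstrassP (F w)) (Metric.ball z0 ε) := fun w hw =>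
        (L.analyticOnNhd_weierstrassP (F w) (hball hw).2).fun_comp (F_analytic (hball hw).1)
      have hB : AnalyticOnNhd ℂ (fun w => X1 w + 13 / 12) (Metric.ball z0 ε) :=
        fun w hw => by
          have h2 := X1_analytic (hball hw).1
          fun_prop
      have heq : (fun w => L.weierstrassP (F w)) =ᶠ[𝓝 v] fun w => X1 w + 13 / 12 := by
        filter_upwards [hvV.2] with w hw
        exact hw.2
      have h3 := hA.eqOn_of_preconnected_of_eventuallyEq hB
        (convex_ball z0 ε).isPreconnected hvB heq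
      filter_upwards [Metric.ball_mem_nhds z0 hε] with w hw
      exact ⟨(hball hw).2, h3 hw⟩
  have hsub := (convex_halfSpace_im_gt 0).isPreconnected.subset_of_closure_inter_subset hVo hne hcl
  intro z hz
  exact (hsub hz).2.self_of_nhds

/-- the periods are in the lattice -/
theorem period_mem (hinj : S_INJ) {a b c d : ℤ} (h : a * d - b * (14 * c) = 1) {p : ℂ}
    (hp : ∀ z : ℂ, 0 < z.im → F ((a * z + b) / (14 * c * z + d)) = F z + p) :
    p ∈ L.lattice := by
  have hw := wp_F hcp hq hode L g2 g3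
  by_contra hpL
  have h1 : ∀ z : ℂ, 0 < z.im → 2 * F z + p ∈ L.lattice := by
    intro z hz
    have hm := (G_gamma h hz).1
    obtain ⟨e1, e2⟩ := hw z hz
    obtain ⟨e3, e4⟩ := hw _ hm
    rw [X1_inv hcp hq a b c d h z hz, ← e2] at e4
    rw [hp z hz] at e3 e4
    rcases hinj L _ _ e3 e1 e4 with h5 | h5
    · exact absurd (by simpa using h5) hpL
    · have : F z + p + F z = 2 * F z + p := by ring
      rwa [this] at h5
  have h2 : Tendsto (fun z => 2 * F z + p) iI (𝓝 (2 * 0 + p)) :=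
    (F_QV.tendsto.const_mul 2).add_const p
  have h3 := L.isClosed_lattice.mem_of_tendsto h2 (iI_pos.mono fun z hz => h1 z hz)
  apply hpL
  simpa using h3

/-- the values at the cusps -/
theorem cusp_value {m j : ℂ → ℂ} {x y : ℂ} (h : IsCusp m j x y) {C : ℂ}
    (hC : Tendsto (fun z => F (m z)) iI (𝓝 C)) :
    C ∉ L.lattice ∧ L.weierstrassP C = x + 13 / 12 := by
  have hw := wp_F hcp hq hode L g2 g3
  have hX : Tendsto (fun z => X1 (m z) + 13 / 12) iI (𝓝 (x + 13 / 12)) :=
    h.X.tendsto.add_const _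
  have hCL : C ∉ L.lattice := by
    intro hCL
    have h1 : Tendsto (fun z => wA L C (F (m z))) iI (𝓝 (wA L C C)) :=
      (wA_analytic L C (by simp)).continuousAt.tendsto.comp hC
    rw [wA_same] at h1
    have h2 : Tendsto (fun z => (F (m z) - C) ^ 2 * (X1 (m z) + 13 / 12)) iI
        (𝓝 ((C - C) ^ 2 * (x + 13 / 12))) := ((hC.sub_const C).pow 2).mul hX
    have h3 : (fun z => wA L C (F (m z))) =ᶠ[iI] fun z => (F (m z) - C) ^ 2 * (X1 (m z) + 13 / 12) := by
      filter_upwards [iI_pos] with z hz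
      obtain ⟨e1, e2⟩ := hw _ (h.pos z hz)
      rw [wA_eq L hCL (fun h => e1 (by rw [h]; exact hCL)), e2]
    have h4 := tendsto_nhds_unique (h1.congr' h3) h2
    norm_num at h4
  refine ⟨hCL, ?_⟩
  have h1 : Tendsto (fun z => L.weierstrassP (F (m z))) iI (𝓝 (L.weierstrassP C)) :=
    (L.analyticOnNhd_weierstrassP C hCL).continuousAt.tendsto.comp hC
  refine tendsto_nhds_unique h1 (hX.congr' ?_)
  filter_upwards [iI_pos] with z hz
  exact (hw _ (h.pos z hz)).2.symm

omit g2 g3 hode in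
/-- limits at the cusps -/
lemma exists_limit {m j : ℂ → ℂ} (h : IsMap m j) :
    ∃ C : ℂ, Tendsto (fun z => F (m z)) iI (𝓝 C) := by
  obtain ⟨ε, C, -, -, h1⟩ := h.const
  refine ⟨ε * 0 + C, (((F_QV.tendsto).const_mul ε).add_const C).congr' ?_⟩
  filter_upwards [iI_pos] with z hz
  rw [h1 z hz]

/-- the integral from `r` -/
noncomputable def II (r : ℚ) : ℂ :=
  2 * Real.pi * ∫ t in Ioi (0 : ℝ), ff ((r : ℂ) + t * Complex.I)

/-- all the integrals -/
theorem integrals (hinj : S_INJ) (htors : S_TORS) :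
    II 0 ∉ L.lattice ∧ 2 * II 0 ∉ L.lattice ∧ 3 * II 0 ∉ L.lattice ∧ 6 * II 0 ∈ L.lattice ∧
    (∀ r : ℚ, MeasureTheory.IntegrableOn (fun t : ℝ => ff ((r : ℂ) + t * Complex.I)) (Ioi 0)) ∧
    (∀ r : ℚ, ∃ j : ℤ, II r - j * II 0 ∈ L.lattice) ∧
    (∀ r : ℚ, ¬ (2 : ℤ) ∣ r.den → ¬ (7 : ℤ) ∣ r.den → II r - II 0 ∈ L.lattice) := by
  have c14 := isCusp14 hcp hq
  have c7 := isCusp7 hcp hq
  have c2 := cusp2
  obtain ⟨C14, l14⟩ := exists_limit hcp hq c14.map
  obtain ⟨C7, l7⟩ := exists_limit hcp hq c7.map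
  obtain ⟨C2, l2⟩ := exists_limit hcp hq c2.map
  obtain ⟨n14, v14⟩ := cusp_value hcp hq hode L g2 g3 c14 l14
  obtain ⟨n7, v7⟩ := cusp_value hcp hq hode L g2 g3 c7 l7
  obtain ⟨n2, v2⟩ := cusp_value hcp hq hode L g2 g3 c2 l2
  have key : ∀ {m j : ℂ → ℂ} (_ : IsMap m j) {C : ℂ} (_ : Tendsto (fun z => F (m z)) iI (𝓝 C))
      (r : ℚ), Hit (r : ℂ) m → MeasureTheory.IntegrableOn
        (fun t : ℝ => ff ((r : ℂ) + t * Complex.I)) (Ioi 0) ∧ II r - C ∈ L.lattice := by
    intro m j h C hC r hr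
    obtain ⟨h1, a, b, c, d, hdet, p, hp, h2⟩ := hit_prim h hcp hq hC (by simp) hr
    refine ⟨h1, ?_⟩
    unfold II
    rw [h2, add_sub_cancel_left]
    exact period_mem hcp hq hode L g2 g3 hinj hdet hp
  have i0 := (key c14.map l14 0 (exists_hit_coprime 0 (by simp) (by simp))).2
  have hper : ∀ x y : ℂ, x - y ∈ L.lattice → L.weierstrassP x = L.weierstrassP y := by
    intro x y hxy
    have := L.weierstrassP_add_coe y ⟨x - y, hxy⟩
    simpa using this
  have hII : II 0 ∉ L.lattice := by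
    intro h
    apply n14
    have := sub_mem h i0
    simpa using this
  have hv : L.weierstrassP (II 0) = 109 / 12 := by
    rw [hper _ _ i0, v14]; norm_num
  obtain ⟨t2, t3, w2, w3, t6⟩ := htors L g2 g3 (II 0) hII hv
  refine ⟨hII, t2, t3, t6, ?_, ?_, ?_⟩
  · intro r
    rcases exists_hit r with h | h | h | h
    · exact (key c14.map l14 r h).1
    · exact (key c7.map l7 r h).1
    · exact (key c2.map l2 r h).1
    · exact (key idMap F_QV.tendsto r h).1
  · intro r
    rcases exists_hit r with h | h | h | h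
    · refine ⟨1, ?_⟩
      have := sub_mem (key c14.map l14 r h).2 i0
      push_cast
      convert this using 1
      ring
    · have h1 := (key c7.map l7 r h).2
      have h2 : L.weierstrassP C7 = L.weierstrassP (2 * II 0) := by rw [v7, w2]; norm_num
      rcases hinj L _ _ n7 t2 h2 with h3 | h3
      · refine ⟨2, ?_⟩
        have := add_mem h1 h3
        push_cast
        convert this using 1
        ring
      · refine ⟨-2, ?_⟩
        have := add_mem h1 h3
        push_cast
        convert this using 1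
        ring
    · have h1 := (key c2.map l2 r h).2
      have h2 : L.weierstrassP C2 = L.weierstrassP (3 * II 0) := by rw [v2, w3]; norm_num
      rcases hinj L _ _ n2 t3 h2 with h3 | h3
      · refine ⟨3, ?_⟩
        have := add_mem h1 h3
        push_cast
        convert this using 1
        ring
      · refine ⟨-3, ?_⟩
        have := add_mem h1 h3
        push_cast
        convert this using 1
        ring
    · refine ⟨0, ?_⟩
      have := (key idMap F_QV.tendsto r h).2
      simpa using this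
  · intro r h2 h7
    have := sub_mem (key c14.map l14 r (exists_hit_coprime r h2 h7)).2 i0
    convert this using 1
    ring

end lattice

end Pool.Agent.W97.MT
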